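import Pool.Agent.Helper92.UN.Fin
import Pool.Agent.Helper2.RO.Psl
import Pool.Agent.Helper2.RO.Three

/-!
# Project UN: `PSU(n, q)`, `q` odd

`SU` is `Matrix.specialUnitaryGroup ι K` for a finite field `K` with a non trivial involution `star`;
it acts on `ι → K` and preserves the form `x ⬝ᵥ star y`.
-/

set_option autoImplicit false

open Matrix

namespace Pool.Agent.Helper92.UN

open Pool.Agent.Helper81.UT

variable {K : Type*} [Field K] [StarRing K] {ι : Type*} [Fintype ι] [DecidableEq ι]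

variable (K ι) in
/-- The standard hermitian form. -/
def fm (x y : ι → K) : K := x ⬝ᵥ star y

omit [DecidableEq ι] in
theorem fm_def (x y : ι → K) : fm K ι x y = x ⬝ᵥ star y := rfl

theorem herm_fm : Herm (fm K ι) where
  add x y z := add_dotProduct _ _ _
  smul c x y := by rw [fm, fm, smul_dotProduct, smul_eq_mul]
  symm x y := by
    rw [fm, fm, ← star_star x, star_dotProduct_star, star_star, star_star]
  nondeg x hx := by
    ext i
    have h1 := hx (Pi.single i 1)
    rw [fm] at h1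
    have h2 : star (Pi.single i (1 : K) : ι → K) = Pi.single i 1 := by
      rw [← Pi.single_star, star_one]
    rw [h2, dotProduct_single, mul_one] at h1
    exact h1

/-- The special unitary group. -/
abbrev SU (ι K : Type*) [Fintype ι] [DecidableEq ι] [Field K] [StarRing K] : Type _ :=
  Matrix.specialUnitaryGroup ι K

/-- The projective special unitary group. -/
abbrev PSU (ι K : Type*) [Fintype ι] [DecidableEq ι] [Field K] [StarRing K] : Type _ :=
  SU ι K ⧸ Subgroup.center (SU ι K)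

theorem su_mul_star (A : SU ι K) : (A : Matrix ι ι K) * star (A : Matrix ι ι K) = 1 :=
  (Unitary.mem_iff.1 A.2.1).2

theorem su_star_mul (A : SU ι K) : star (A : Matrix ι ι K) * (A : Matrix ι ι K) = 1 :=
  (Unitary.mem_iff.1 A.2.1).1

/-- The action. -/
def rhoSU : SU ι K →* ((ι → K) ≃ₗ[K] (ι → K)) where
  toFun A :=
    { toFun := fun x => (A : Matrix ι ι K) *ᵥ x
      map_add' := fun x y => mulVec_add _ x y
      map_smul' := fun c x => mulVec_smul _ c x
      invFun := fun x => star (A : Matrix ι ι K) *ᵥ x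
      left_inv := fun x => by
        show star (A : Matrix ι ι K) *ᵥ ((A : Matrix ι ι K) *ᵥ x) = x
        rw [mulVec_mulVec, su_star_mul, one_mulVec]
      right_inv := fun x => by
        show (A : Matrix ι ι K) *ᵥ (star (A : Matrix ι ι K) *ᵥ x) = x
        rw [mulVec_mulVec, su_mul_star, one_mulVec] }
  map_one' := by
    apply LinearEquiv.ext
    intro x
    exact one_mulVec x
  map_mul' A B := by
    apply LinearEquiv.ext
    intro x
    exact (mulVec_mulVec x (A : Matrix ι ι K) (B : Matrix ι ι K)).symm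

theorem rhoSU_apply (A : SU ι K) (x : ι → K) : rhoSU A x = (A : Matrix ι ι K) *ᵥ x := rfl

theorem iso_rhoSU (A : SU ι K) (x y : ι → K) : fm K ι (rhoSU A x) (rhoSU A y) = fm K ι x y := by
  rw [rhoSU_apply, rhoSU_apply, fm, fm, star_mulVec, dotProduct_comm, ← dotProduct_mulVec,
    mulVec_mulVec]
  have h1 : (A : Matrix ι ι K)ᴴ * (A : Matrix ι ι K) = 1 := su_star_mul A
  rw [h1, one_mulVec, dotProduct_comm]

omit [StarRing K] in
theorem mat_ext {A B : Matrix ι ι K} (H : ∀ x, A *ᵥ x = B *ᵥ x) : A = B := by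
  ext i j
  have h1 := congrFun (H (Pi.single j 1)) i
  rw [mulVec_single_one, mulVec_single_one] at h1
  exact h1

/-- The matrix of a multiple of a reflection. -/
def mrf (κ : K) (u : ι → K) : Matrix ι ι K :=
  κ • (1 + (-2 : K) • vecMulVec u (star u))

theorem mrf_mulVec (κ : K) (u x : ι → K) : mrf κ u *ᵥ x = κ • rf (fm K ι) u x := by
  rw [mrf, smul_mulVec, add_mulVec, one_mulVec, smul_mulVec, vecMulVec_mulVec, rf, fm,
    dotProduct_comm x]
  congr 1
  ext i
  simp only [Pi.add_apply, Pi.smul_apply, Pi.sub_apply, MulOpposite.smul_eq_mul_unop,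
    MulOpposite.unop_op, smul_eq_mul]
  ring

theorem mrf_det (κ : K) {u : ι → K} (hu : Un (fm K ι) u) :
    (mrf κ u).det = -κ ^ Fintype.card ι := by
  have h1 : star u ⬝ᵥ u = 1 := by
    rw [dotProduct_comm]
    exact hu
  have h3 := Pool.Agent.Helper2.RO.det_el κ (-2 : K) (Pool.Agent.Helper2.RO.mk_mem_one h1)
  rw [mrf]
  rw [Pool.Agent.Helper2.RO.el] at h3
  rw [h3]
  ring

theorem mrf_mem {κ : K} (hκ : nm κ = 1) (hdet : -κ ^ Fintype.card ι = 1) {u : ι → K}
    (hu : Un (fm K ι) u) : mrf κ u ∈ Matrix.specialUnitaryGroup ι K := by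
  rw [Matrix.mem_specialUnitaryGroup_iff]
  refine ⟨?_, by rw [mrf_det κ hu, hdet]⟩
  have h1 : star u ⬝ᵥ u = 1 := by
    rw [dotProduct_comm]
    exact hu
  obtain ⟨E, hE⟩ : ∃ E : Matrix ι ι K, E = vecMulVec u (star u) := ⟨_, rfl⟩
  have hEE : E * E = E := by
    rw [hE, Pool.Agent.Helper2.RO.mul_eq, h1, one_smul]
  have hEs : star E = E := by
    rw [hE, star_eq_conjTranspose, conjTranspose_vecMulVec, star_star]
  have hst : star (mrf κ u) = star κ • (1 + (-2 : K) • E) := by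
    rw [mrf, ← hE, star_smul, star_add, star_one, star_smul, hEs, star_neg, star_two]
  rw [Matrix.mem_unitaryGroup_iff, hst, mrf, ← hE, smul_mul_smul_comm]
  have h4 : (1 + (-2 : K) • E) * (1 + (-2 : K) • E) = 1 := by
    have h5 : (1 + (-2 : K) • E) * (1 + (-2 : K) • E) = 1 + (-4 : K) • E + (4 : K) • (E * E) := by
      rw [mul_add, add_mul, add_mul, one_mul, one_mul, smul_mul_smul_comm, mul_one]
      module
    rw [h5, hEE]
    module
  have h5 : κ * star κ = 1 := hκ
  rw [h4, h5, one_smul]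

/-- A central element acts as a scalar. -/
theorem central_scalar [Finite K] (hn : 3 ≤ Fintype.card ι) (h2 : (2 : K) ≠ 0)
    (hstar : ∃ x : K, star x ≠ x) {κ : K} (hκ : nm κ = 1) (hdet : -κ ^ Fintype.card ι = 1)
    {A : SU ι K} (hA : A ∈ Subgroup.center (SU ι K)) :
    ∃ c : K, ∀ x, rhoSU A x = c • x := by
  have hh : Herm (fm K ι) := herm_fm
  refine scalar hh h2 hstar (by rw [Module.finrank_fintype_fun_eq_card]; exact hn) (rhoSU A)
    fun u hu => ?_
  have hκ0 : κ ≠ 0 := by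
    rintro rfl
    rw [nm_zero] at hκ
    exact zero_ne_one hκ
  have hAu : Un (fm K ι) (rhoSU A u) := by
    rw [Un, iso_rhoSU]
    exact hu
  rw [← Rf_eq_iff hh h2 hu hAu]
  have h3 := Subgroup.mem_center_iff.1 hA ⟨mrf κ u, mrf_mem hκ hdet hu⟩
  apply LinearEquiv.ext
  intro y
  obtain ⟨x, rfl⟩ := (rhoSU A).surjective y
  rw [Rf_apply, Rf_apply]
  have h4 := congrArg (fun B => rhoSU B x) h3
  simp only [rho_mul_apply] at h4
  have h5 : ∀ z, rhoSU (⟨mrf κ u, mrf_mem hκ hdet hu⟩ : SU ι K) z = κ • rf (fm K ι) u z :=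
    fun z => mrf_mulVec κ u z
  rw [h5, h5, map_smul] at h4
  have h6 := smul_right_injective _ hκ0 h4
  rw [h6]
  rw [rf, rf, map_sub, map_smul, iso_rhoSU]

theorem scalar_central {A : SU ι K} (hA : ∃ c : K, ∀ x, rhoSU A x = c • x) :
    A ∈ Subgroup.center (SU ι K) := by
  obtain ⟨c, hc⟩ := hA
  rw [Subgroup.mem_center_iff]
  intro B
  apply Subtype.ext
  apply mat_ext
  intro x
  show rhoSU (B * A) x = rhoSU (A * B) x
  rw [rho_mul_apply, rho_mul_apply, hc, hc, map_smul]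

/-- The hypotheses hold. -/
theorem hy_SU [Finite K] (hn : 3 ≤ Fintype.card ι) (h2 : (2 : K) ≠ 0)
    (hstar : ∃ x : K, star x ≠ x) {κ : K} (hκ : nm κ = 1) (hdet : -κ ^ Fintype.card ι = 1) :
    Hy (fm K ι) rhoSU (QuotientGroup.mk' (Subgroup.center (SU ι K))) where
  hh := herm_fm
  h2 := h2
  geo := geo_unitary herm_fm h2 hstar (by
    rw [Module.finrank_fintype_fun_eq_card]
    exact hn)
  hdim := by
    rw [Module.finrank_fintype_fun_eq_card]
    exact hn
  iso := iso_rhoSU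
  surj := QuotientGroup.mk'_surjective _
  ker A := by
    rw [QuotientGroup.mk'_apply, QuotientGroup.eq_one_iff]
    exact ⟨fun h => central_scalar hn h2 hstar hκ hdet h, fun h => scalar_central h⟩
  refl u hu := ⟨⟨mrf κ u, mrf_mem hκ hdet hu⟩, κ, fun x => mrf_mulVec κ u x⟩

/-- An element of rank one type acts as a multiple of a reflection. -/
theorem refl_of_rank_one [Finite K] (hn : 3 ≤ Fintype.card ι) (h2 : (2 : K) ≠ 0)
    (hstar : ∃ x : K, star x ≠ x) (A : SU ι K) {r : K} {w g : ι → K} (hw : w ≠ 0) (hg : g ≠ 0)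
    (hA : (A : Matrix ι ι K) = r • (1 : Matrix ι ι K) + vecMulVec w g)
    (hA2 : (A : Matrix ι ι K) * (A : Matrix ι ι K) = (r * r) • (1 : Matrix ι ι K)) :
    nm r = 1 ∧ -r ^ Fintype.card ι = 1 ∧ ∃ u, Un (fm K ι) u ∧ (A : Matrix ι ι K) = mrf r u := by
  have hh : Herm (fm K ι) := herm_fm
  have hdet : (A : Matrix ι ι K).det = 1 := (Matrix.mem_specialUnitaryGroup_iff.1 A.2).2
  -- the action
  have hAx : ∀ x, rhoSU A x = r • x + (g ⬝ᵥ x) • w := by
    intro x
    rw [rhoSU_apply, hA, add_mulVec, smul_mulVec, one_mulVec, vecMulVec_mulVec]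
    congr 1
    ext i
    simp only [Pi.smul_apply, MulOpposite.smul_eq_mul_unop, MulOpposite.unop_op, smul_eq_mul]
    ring
  have hr0 : r ≠ 0 := by
    rintro rfl
    rw [mul_zero, zero_smul] at hA2
    have h3 := congrArg Matrix.det hA2
    have hne : Nonempty ι := Fintype.card_pos_iff.1 (by omega)
    rw [det_mul, hdet, one_mul, det_zero] at h3
    exact one_ne_zero h3
  have hgw : g ⬝ᵥ w = -2 * r := by
    have h3 : rhoSU A (rhoSU A w) = (r * r) • w := by
      rw [← rho_mul_apply, rhoSU_apply]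
      show ((A : Matrix ι ι K) * (A : Matrix ι ι K)) *ᵥ w = _
      rw [hA2, smul_mulVec, one_mulVec]
    rw [hAx w, map_add, map_smul, map_smul, hAx w] at h3
    have h4 : ((g ⬝ᵥ w) * (2 * r + g ⬝ᵥ w)) • w = 0 := by
      have h5 : r • (r • w + (g ⬝ᵥ w) • w) + (g ⬝ᵥ w) • (r • w + (g ⬝ᵥ w) • w) - (r * r) • w = 0 :=
        sub_eq_zero.2 h3
      rw [← h5]
      module
    have h5 := (smul_eq_zero.1 h4).resolve_right hw
    rcases mul_eq_zero.1 h5 with h6 | h6
    · -- if `g w = 0` then `A²` is not scalar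
      exfalso
      obtain ⟨i, hi⟩ := Function.ne_iff.1 hg
      have h7 : rhoSU A (rhoSU A (Pi.single i 1)) = (r * r) • (Pi.single i 1 : ι → K) := by
        rw [← rho_mul_apply, rhoSU_apply]
        show ((A : Matrix ι ι K) * (A : Matrix ι ι K)) *ᵥ _ = _
        rw [hA2, smul_mulVec, one_mulVec]
      have h8 : g ⬝ᵥ (Pi.single i (1 : K)) = g i := by
        rw [dotProduct_single, mul_one]
      rw [hAx (Pi.single i 1), map_add, map_smul, map_smul, hAx (Pi.single i 1), hAx w, h6, h8] at h7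
      have h9 : (2 * r * g i) • w = 0 := by
        have h10 := sub_eq_zero.2 h7
        rw [← h10]
        module
      rcases smul_eq_zero.1 h9 with h10 | h10
      · exact mul_ne_zero (mul_ne_zero h2 hr0) hi h10
      · exact hw h10
    · linear_combination h6
  -- `nm r = 1`
  have hnr : nm r = 1 := by
    obtain ⟨x, hx0, hgx, hwx⟩ := Pool.Agent.Helper2.RO.exists_perp hn g (star w)
    have hxw : fm K ι x w = 0 := by
      rw [fm, dotProduct_comm]
      exact hwx
    obtain ⟨y, hy⟩ := exists_right hh hx0 1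
    have h3 := iso_rhoSU A x y
    rw [hAx, hAx, hgx, zero_smul, add_zero, hh.smul, hh.add_right, hh.smul_right, hh.smul_right, hxw,
      hy] at h3
    rw [nm]
    linear_combination h3
  -- `h x w = 0` if `g x = 0`
  have hker : ∀ x, g ⬝ᵥ x = 0 → fm K ι x w = 0 := by
    intro x hx
    have h3 := iso_rhoSU A x w
    rw [hAx, hAx, hx, hgw, zero_smul, add_zero, ← add_smul, hh.smul, hh.smul_right] at h3
    have h4 : star (r + -2 * r) = -star r := by
      rw [show r + -2 * r = -r by ring, star_neg]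
    rw [h4] at h3
    rw [nm] at hnr
    have h5 : (2 : K) * fm K ι x w = 0 := by linear_combination -(fm K ι x w) * hnr - h3
    exact (mul_eq_zero.1 h5).resolve_left h2
  have hgw0 : g ⬝ᵥ w ≠ 0 := by
    rw [hgw]
    exact mul_ne_zero (neg_ne_zero.2 h2) hr0
  have hprop : ∀ x, fm K ι x w = (g ⬝ᵥ x / g ⬝ᵥ w) * fm K ι w w := by
    intro x
    have h3 := hker (x - (g ⬝ᵥ x / g ⬝ᵥ w) • w) (by
      rw [dotProduct_sub, dotProduct_smul, smul_eq_mul, div_mul_cancel₀ _ hgw0, sub_self])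
    rw [sub_left92 hh, hh.smul] at h3
    exact sub_eq_zero.1 h3
  have hww : fm K ι w w ≠ 0 := by
    intro h0
    apply hw
    apply hh.nondeg
    intro y
    rw [hh.eq_zero_comm, hprop, h0, mul_zero]
  obtain ⟨c, hc, hu⟩ := exists_unit hh h2 hstar hww
  have hAm : (A : Matrix ι ι K) = mrf r (c • w) := by
    apply mat_ext
    intro x
    rw [mrf_mulVec, ← rhoSU_apply, hAx, rf, hh.smul_right, smul_sub, smul_smul, smul_smul]
    have h3 : nm c * fm K ι w w = 1 := by
      have h4 := hu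
      rw [Un, hh.smul, hh.smul_right] at h4
      rw [nm]
      linear_combination h4
    have h4 : g ⬝ᵥ x = -2 * r * (nm c * fm K ι x w) := by
      have h5 : (g ⬝ᵥ x / g ⬝ᵥ w) * (g ⬝ᵥ w) = g ⬝ᵥ x := div_mul_cancel₀ _ hgw0
      rw [hprop x]
      rw [hgw] at h5 ⊢
      linear_combination (-1 : K) * h5 + (2 * r * (g ⬝ᵥ x / (-2 * r))) * h3
    have h5 : r * (2 * (star c * fm K ι x w)) * c = -(g ⬝ᵥ x) := by
      rw [h4, nm]
      ring
    rw [h5]
    module
  refine ⟨hnr, ?_, c • w, hu, hAm⟩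
  rw [← mrf_det r hu, ← hAm, hdet]

/-- The theorem for `PSU(n, q)`, `q` odd. -/
theorem psu [Finite K] (hn : 3 ≤ Fintype.card ι) (h2 : (2 : K) ≠ 0)
    (hstar : ∃ x : K, star x ≠ x) [IsSimpleGroup (PSU ι K)] (A : SU ι K)
    {r : K} {w g : ι → K} (hw : w ≠ 0) (hg : g ≠ 0)
    (hA : (A : Matrix ι ι K) = r • (1 : Matrix ι ι K) + vecMulVec w g)
    (hA2 : (A : Matrix ι ι K) * (A : Matrix ι ι K) = (r * r) • (1 : Matrix ι ι K))
    (a : PSU ι K) (ha : QuotientGroup.mk A = a) :
    orderOf a = 2 ∧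
    ∀ τ : Equiv.Perm {b : PSU ι K // IsConj a b},
      (∀ x y, x ≠ y → orderOf ((τ x : PSU ι K) * τ y) = orderOf ((x : PSU ι K) * y)) →
      ∃ φ : MulAut (PSU ι K),
        φ '' {b | IsConj a b} = {b | IsConj a b} ∧ ∀ x, φ x.1 = (τ x).1 := by
  obtain ⟨hnr, hdet, u, hu, hAm⟩ := refl_of_rank_one hn h2 hstar A hw hg hA hA2
  have hy := hy_SU (ι := ι) hn h2 hstar hnr hdet
  have haD : a ∈ Df (fm K ι) rhoSU (QuotientGroup.mk' (Subgroup.center (SU ι K))) := by
    refine ⟨A, u, hu, ⟨r, fun x => ?_⟩, ha⟩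
    rw [rhoSU_apply, hAm, mrf_mulVec]
  have hset : ∀ b, b ∈ Df (fm K ι) rhoSU (QuotientGroup.mk' (Subgroup.center (SU ι K))) ↔
      IsConj a b := fun b => Df_isConj hy haD b
  refine ⟨Df_order hy haD, fun τ hτ => ?_⟩
  have : Finite (Matrix ι ι K) := by unfold Matrix; infer_instance
  have : Finite (SU ι K) := Finite.of_injective (fun A => (A : Matrix ι ι K)) Subtype.val_injective
  let e : Df (fm K ι) rhoSU (QuotientGroup.mk' (Subgroup.center (SU ι K))) ≃
      {b : PSU ι K // IsConj a b} := Equiv.subtypeEquivRight hset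
  obtain ⟨φ, hφ⟩ := final hy (Df_closure hy haD) ((e.trans τ).trans e.symm) (by
    intro x y hxy
    exact hτ (e x) (e y) fun h => hxy (e.injective h))
  have hφ' : ∀ x : {b : PSU ι K // IsConj a b}, φ x.1 = (τ x).1 := by
    intro x
    have h3 := hφ (e.symm x)
    have h4 : ((e.trans τ).trans e.symm) (e.symm x) = e.symm (τ x) := by
      show e.symm (τ (e (e.symm x))) = _
      rw [Equiv.apply_symm_apply]
    rw [h4] at h3
    exact h3
  refine ⟨φ, ?_, hφ'⟩
  ext b
  constructor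
  · rintro ⟨x, hx, rfl⟩
    rw [hφ' ⟨x, hx⟩]
    exact (τ ⟨x, hx⟩).2
  · intro hb
    refine ⟨(τ.symm ⟨b, hb⟩).1, (τ.symm ⟨b, hb⟩).2, ?_⟩
    rw [hφ', Equiv.apply_symm_apply]

/-- In `PSU(3, q)`, `q` odd, every involution has rank one type. -/
theorem three_psu [Finite K] (h2 : (2 : K) ≠ 0) (hstar : ∃ x : K, star x ≠ x)
    (a : PSU (Fin 3) K) (ha : orderOf a = 2) :
    ∃ (A : SU (Fin 3) K) (r : K) (w g : Fin 3 → K), w ≠ 0 ∧ g ≠ 0 ∧
      (A : Matrix (Fin 3) (Fin 3) K) = r • (1 : Matrix (Fin 3) (Fin 3) K) + vecMulVec w g ∧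
      (A : Matrix (Fin 3) (Fin 3) K) * (A : Matrix (Fin 3) (Fin 3) K) =
        (r * r) • (1 : Matrix (Fin 3) (Fin 3) K) ∧
      (QuotientGroup.mk A : PSU (Fin 3) K) = a := by
  obtain ⟨A, rfl⟩ := QuotientGroup.mk_surjective a
  have hne : (QuotientGroup.mk A : PSU (Fin 3) K) ≠ 1 := by
    intro h1
    rw [h1, orderOf_one] at ha
    omega
  have hsq : (QuotientGroup.mk A : PSU (Fin 3) K) ^ 2 = 1 := by
    rw [← ha]
    exact pow_orderOf_eq_one _
  have hc : A * A ∈ Subgroup.center (SU (Fin 3) K) := by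
    rw [← QuotientGroup.eq_one_iff, QuotientGroup.mk_mul, ← sq]
    exact hsq
  have hκ : nm (-1 : K) = 1 := by rw [nm_neg, nm_one]
  have hdet : -(-1 : K) ^ Fintype.card (Fin 3) = 1 := by
    rw [Fintype.card_fin]
    ring
  obtain ⟨q, hq⟩ := central_scalar (by rw [Fintype.card_fin]) h2 hstar hκ hdet hc
  have hq' : (A : Matrix (Fin 3) (Fin 3) K) * (A : Matrix (Fin 3) (Fin 3) K) =
      q • (1 : Matrix (Fin 3) (Fin 3) K) := by
    apply mat_ext
    intro x
    rw [smul_mulVec, one_mulVec]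
    exact hq x
  have hdA : (A : Matrix (Fin 3) (Fin 3) K).det = 1 :=
    (Matrix.mem_specialUnitaryGroup_iff.1 A.2).2
  have hq3 : q ^ 3 = 1 := by
    have h3 := congrArg Matrix.det hq'
    rw [det_mul, hdA, det_smul, det_one, Fintype.card_fin] at h3
    linear_combination -h3
  have hnq : nm q = 1 := by
    have h3 := iso_rhoSU (A * A) (Pi.single 0 1 : Fin 3 → K) (Pi.single 0 1)
    have hh : Herm (fm K (Fin 3)) := herm_fm
    rw [hq, hh.smul, hh.smul_right] at h3
    have h4 : fm K (Fin 3) (Pi.single 0 1 : Fin 3 → K) (Pi.single 0 1) = 1 := by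
      rw [fm, single_dotProduct, one_mul, Pi.star_apply, Pi.single_eq_same, star_one]
    rw [h4, mul_one] at h3
    exact h3
  have hZm : q • (1 : Matrix (Fin 3) (Fin 3) K) ∈ Matrix.specialUnitaryGroup (Fin 3) K := by
    rw [Matrix.mem_specialUnitaryGroup_iff]
    refine ⟨?_, ?_⟩
    · rw [Matrix.mem_unitaryGroup_iff, star_smul, star_one, smul_mul_smul_comm, mul_one]
      have h5 : q * star q = 1 := hnq
      rw [h5, one_smul]
    · rw [det_smul, det_one, Fintype.card_fin, mul_one, hq3]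
  obtain ⟨Z, hZ⟩ : ∃ Z : SU (Fin 3) K, (Z : Matrix (Fin 3) (Fin 3) K) = q • 1 := ⟨⟨_, hZm⟩, rfl⟩
  have hZc : Z ∈ Subgroup.center (SU (Fin 3) K) := by
    apply scalar_central
    refine ⟨q, fun x => ?_⟩
    rw [rhoSU_apply, hZ, smul_mulVec, one_mulVec]
  have hB : ((Z * A : SU (Fin 3) K) : Matrix (Fin 3) (Fin 3) K) =
      q • (A : Matrix (Fin 3) (Fin 3) K) := by
    show (Z : Matrix (Fin 3) (Fin 3) K) * (A : Matrix (Fin 3) (Fin 3) K) = _
    rw [hZ, smul_mul_assoc, one_mul]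
  have hBB : (q • (A : Matrix (Fin 3) (Fin 3) K)) * (q • (A : Matrix (Fin 3) (Fin 3) K)) = 1 := by
    rw [smul_mul_assoc, mul_smul_comm, hq', smul_smul, smul_smul,
      show q * q * q = q ^ 3 by ring, hq3, one_smul]
  have hmk : (QuotientGroup.mk (Z * A) : PSU (Fin 3) K) = QuotientGroup.mk A := by
    rw [QuotientGroup.mk_mul, (QuotientGroup.eq_one_iff _).2 hZc, one_mul]
  have hns : ∀ s : K, q • (A : Matrix (Fin 3) (Fin 3) K) ≠ s • (1 : Matrix (Fin 3) (Fin 3) K) := by
    intro s hs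
    apply hne
    rw [← hmk, QuotientGroup.eq_one_iff]
    apply scalar_central
    refine ⟨s, fun x => ?_⟩
    rw [rhoSU_apply, hB, hs, smul_mulVec, one_mulVec]
  obtain ⟨r, w, g, hw, hg, hr, e⟩ := Pool.Agent.Helper2.RO.three hBB hns
  refine ⟨Z * A, r, w, g, hw, hg, ?_, ?_, hmk⟩
  · rw [hB, e]
  · rw [hB, hBB, hr, one_smul]

/-- `PSU(3, q)`, `q` odd: all involutions. -/
theorem psu_three [Finite K] (h2 : (2 : K) ≠ 0) (hstar : ∃ x : K, star x ≠ x)
    [IsSimpleGroup (PSU (Fin 3) K)] (a : PSU (Fin 3) K) (ha : orderOf a = 2)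
    (τ : Equiv.Perm {b : PSU (Fin 3) K // IsConj a b})
    (hτ : ∀ x y, x ≠ y →
      orderOf ((τ x : PSU (Fin 3) K) * τ y) = orderOf ((x : PSU (Fin 3) K) * y)) :
    ∃ φ : MulAut (PSU (Fin 3) K),
      φ '' {b | IsConj a b} = {b | IsConj a b} ∧ ∀ x, φ x.1 = (τ x).1 := by
  obtain ⟨A, r, w, g, hw, hg, hA, hA2, hmk⟩ := three_psu h2 hstar a ha
  exact (psu (by rw [Fintype.card_fin]) h2 hstar A hw hg hA hA2 a hmk).2 τ hτ

end Pool.Agent.Helper92.UN
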