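import Pool.Agent.Helper92.UN.Rfl

/-!
# Project UN: connectedness of the unit vectors by orthogonality; scalars
-/

set_option autoImplicit false

namespace Pool.Agent.Helper92.UN

open Pool.Agent.Helper81.UT

variable {K V : Type*} [Field K] [StarRing K] [AddCommGroup V] [Module K V] {h : V → V → K}

variable [Finite K] [FiniteDimensional K V]

theorem chain (hh : Herm h) (h2 : (2 : K) ≠ 0) (hstar : ∃ x : K, star x ≠ x)
    (hdim : 3 ≤ Module.finrank K V) {u v : V} (hu : Un h u) (hv : Un h v)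
    (huv : ¬ Eqv K u v) :
    ∃ z z', Un h z ∧ Un h z' ∧ h u z = 0 ∧ h z z' = 0 ∧ h z' v = 0 := by
  have huu : h u u ≠ 0 := by
    rw [hu]
    exact one_ne_zero
  have hdimu : 2 ≤ Module.finrank K (perpSp hh u) := by
    have := finrank_perp hh huu
    omega
  have hw0 : (⟨_, sub_mem_perp1 hh hu v⟩ : perpSp hh u) ≠ 0 := by
    intro h0
    apply huv
    have h1 : v - h v u • u = 0 := congrArg Subtype.val h0
    have h3 : v = h v u • u := sub_eq_zero.1 h1
    refine ⟨h v u, ?_, h3⟩
    have h4 := hv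
    rw [Un, h3, hh.smul, hh.smul_right, hu, mul_one] at h4
    exact h4
  obtain ⟨β, hβ⟩ := norm_surj h2 hstar (s := (-1 : K)) (by rw [star_neg, star_one])
  have hβ0 : β ≠ 0 := by
    rintro rfl
    rw [nm_zero] at hβ
    exact neg_ne_zero.2 one_ne_zero hβ.symm
  obtain ⟨z, hz1, hz2⟩ := exists_vec (herm_perp hh huu) h2 hstar hdimu hw0 hβ0 (star_one K)
  have hzu : h (z : V) u = 0 := z.2
  have huz : h u (z : V) = 0 := hh.eq_zero_comm.1 hzu
  have hz1' : h (v - h v u • u) (z : V) = β := hz1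
  have hzz : Un h (z : V) := hz2
  have hvz : h v (z : V) = β := by
    rw [sub_left92 hh, hh.smul, huz, mul_zero, sub_zero] at hz1'
    exact hz1'
  have hzz0 : h (z : V) (z : V) ≠ 0 := by
    rw [hzz]
    exact one_ne_zero
  have hdimz : 2 ≤ Module.finrank K (perpSp hh (z : V)) := by
    have := finrank_perp hh hzz0
    omega
  have hy1 : h (v - h v (z : V) • (z : V)) (z : V) = 0 := sub_mem_perp1 hh hzz v
  have hyy : h (v - h v (z : V) • (z : V)) (v - h v (z : V) • (z : V)) = 2 := by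
    have h3 := norm_split hh hzz hy1 (h v (z : V))
    have h4 : v = h v (z : V) • (z : V) + (v - h v (z : V) • (z : V)) := by module
    rw [← h4, hv, hvz, hβ] at h3
    rw [← hvz] at h3
    linear_combination -h3
  obtain ⟨z', hz3, hz4⟩ := exists_non_perp (herm_perp hh hzz0) h2 hdimz
    (w := ⟨_, sub_mem_perp1 hh hzz v⟩) (by
      show h (v - h v (z : V) • (z : V)) (v - h v (z : V) • (z : V)) ≠ 0
      rw [hyy]
      exact h2)
  have hz3' : h (z' : V) (v - h v (z : V) • (z : V)) = 0 := hz3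
  have hz4' : h (z' : V) (z' : V) ≠ 0 := hz4
  have hz'z : h (z' : V) (z : V) = 0 := z'.2
  obtain ⟨c, hc, hcu⟩ := exists_unit hh h2 hstar hz4'
  refine ⟨z, c • (z' : V), hzz, hcu, huz, ?_, ?_⟩
  · rw [hh.smul_right, hh.eq_zero_comm.1 hz'z, mul_zero]
  · rw [sub_right92 hh, hh.smul_right, hz'z, mul_zero, sub_zero] at hz3'
    rw [hh.smul, hz3', mul_zero]

omit [FiniteDimensional K V] in
theorem same_scalar (hh : Herm h) (h2 : (2 : K) ≠ 0) (hstar : ∃ x : K, star x ≠ x)
    (g : V ≃ₗ[K] V) (H : ∀ u, Un h u → Eqv K u (g u)) {u v : V} (hu : Un h u) (hv : Un h v)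
    (huv : h u v = 0) {m : K} (hm : g u = m • u) : g v = m • v := by
  obtain ⟨n, -, hn⟩ := H v hv
  obtain ⟨e, he⟩ := norm_surj h2 hstar (s := (2 : K)⁻¹) star_half
  have he0 : e ≠ 0 := by
    rintro rfl
    rw [nm_zero] at he
    exact inv_ne_zero h2 he.symm
  have hvu : h v u = 0 := hh.eq_zero_comm.1 huv
  have h22 : (2 : K) * 2⁻¹ = 1 := mul_inv_cancel₀ h2
  have hx : Un h (e • u + e • v) := by
    rw [Un, norm_comb hh, huv, hu, hv, mul_zero, trc, star_zero, he]
    linear_combination h22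
  obtain ⟨k, -, hk⟩ := H _ hx
  rw [map_add, map_smul, map_smul, hm, hn] at hk
  have h3 := congrArg (fun y => h y u) hk
  have h4 := congrArg (fun y => h y v) hk
  simp only [hh.add, hh.smul, hvu, huv, mul_zero, add_zero, zero_add] at h3 h4
  rw [hu, mul_one, mul_one] at h3
  rw [hv, mul_one, mul_one] at h4
  have h5 : m = k := by
    apply mul_left_cancel₀ he0
    linear_combination h3
  have h6 : n = k := by
    apply mul_left_cancel₀ he0
    linear_combination h4
  rw [hn, h6, h5]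

theorem scalar (hh : Herm h) (h2 : (2 : K) ≠ 0) (hstar : ∃ x : K, star x ≠ x)
    (hdim : 3 ≤ Module.finrank K V) (g : V ≃ₗ[K] V) (H : ∀ u, Un h u → Eqv K u (g u)) :
    ∃ m : K, ∀ x, g x = m • x := by
  obtain ⟨x0, hx0, -⟩ := exists_perp1 hh (by omega) (0 : V)
  obtain ⟨z0, hz0⟩ := exists_non hh h2 hx0
  obtain ⟨c, hc, hu0⟩ := exists_unit hh h2 hstar hz0
  obtain ⟨u, hu⟩ : ∃ u, u = c • z0 := ⟨_, rfl⟩
  rw [← hu] at hu0
  obtain ⟨m, -, hm⟩ := H u hu0
  refine ⟨m, ?_⟩
  have key : ∀ v, Un h v → g v = m • v := by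
    intro v hv
    by_cases huv : Eqv K u v
    · obtain ⟨d, -, rfl⟩ := huv
      rw [map_smul, hm, smul_comm]
    · obtain ⟨z, z', hz, hz', h3, h4, h5⟩ := chain hh h2 hstar hdim hu0 hv huv
      exact same_scalar hh h2 hstar g H hz' hv h5
        (same_scalar hh h2 hstar g H hz hz' h4 (same_scalar hh h2 hstar g H hu0 hz h3 hm))
  let N : Submodule K V :=
    { carrier := {x | g x = m • x}
      add_mem' := by
        intro x y hx hy
        show g (x + y) = m • (x + y)
        rw [map_add, hx, hy, smul_add]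
      zero_mem' := by
        show g 0 = m • 0
        rw [map_zero, smul_zero]
      smul_mem' := by
        intro d x hx
        show g (d • x) = m • d • x
        rw [map_smul, hx, smul_comm] }
  have h3 : (⊤ : Submodule K V) ≤ N :=
    span_non hh h2 (Submodule.mem_top (x := z0)) hz0
      (fun y _ hy => non_of_unit hh h2 hstar N hy fun d hd => key _ hd)
  intro x
  exact h3 (Submodule.mem_top (x := x))

omit [Finite K] [FiniteDimensional K V] in
/-- Orthogonal unit vectors are exchanged by a reflection. -/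
theorem swap_vec (hh : Herm h) (h2 : (2 : K) ≠ 0) {e : K} (he : nm e = (2 : K)⁻¹) {u v : V}
    (hu : Un h u) (hv : Un h v) (huv : h u v = 0) :
    Un h (e • u + (-e) • v) ∧ rf h (e • u + (-e) • v) u = v := by
  have hvu : h v u = 0 := hh.eq_zero_comm.1 huv
  have h22 : (2 : K) * 2⁻¹ = 1 := mul_inv_cancel₀ h2
  refine ⟨?_, ?_⟩
  · rw [Un, norm_comb hh, huv, hu, hv, mul_zero, trc, star_zero, nm_neg, he]
    linear_combination h22
  · have h1 : h u (e • u + (-e) • v) = star e := by
      rw [hh.add_right, hh.smul_right, hh.smul_right, hu, huv]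
      ring
    rw [rf, h1, smul_add, smul_smul, smul_smul]
    have h3 : 2 * star e * e = 1 := by
      rw [nm] at he
      linear_combination 2 * he + h22
    have h4 : 2 * star e * -e = -1 := by linear_combination -h3
    rw [h3, h4]
    module

/-- The geometric facts which are used in the general theorem. -/
structure Geo (h : V → V → K) : Prop where
  core : ∀ T T' : V → V, LU h T T' →
    (∀ u v, Un h u → Un h v → 2 * nm (h u v) = 1 → 2 * nm (h (T u) (T v)) = 1) →
    ∀ a x, Un h a → Un h x → Eqv K (T (rf h a x)) (rf h (T a) (T x))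
  scal : ∀ g : V ≃ₗ[K] V, (∀ u, Un h u → Eqv K u (g u)) → ∃ m : K, ∀ x, g x = m • x
  move : ∀ u v, Un h u → Un h v → ∃ w₁ w₂ w₃, Un h w₁ ∧ Un h w₂ ∧ Un h w₃ ∧
    Eqv K v (rf h w₃ (rf h w₂ (rf h w₁ u)))

theorem geo_unitary (hh : Herm h) (h2 : (2 : K) ≠ 0) (hstar : ∃ x : K, star x ≠ x)
    (hdim : 3 ≤ Module.finrank K V) : Geo h where
  core T T' hT hhalf a x ha hx := core hh h2 hstar hdim hT hhalf ha hx
  scal g H := scalar hh h2 hstar hdim g H
  move u v hu hv := by
    by_cases huv : Eqv K u v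
    · refine ⟨v, v, v, hv, hv, hv, ?_⟩
      rw [rf_rf hh hv]
      have h1 := rf_congr hh (Eqv.refl v) huv
      rw [rf_self hv] at h1
      exact (h1.trans (eqv_neg v).symm).symm
    · obtain ⟨z, z', hz, hz', h3, h4, h5⟩ := chain hh h2 hstar hdim hu hv huv
      obtain ⟨e, he⟩ := norm_surj h2 hstar (s := (2 : K)⁻¹) star_half
      obtain ⟨a1, b1⟩ := swap_vec hh h2 he hu hz h3
      obtain ⟨a2, b2⟩ := swap_vec hh h2 he hz hz' h4
      obtain ⟨a3, b3⟩ := swap_vec hh h2 he hz' hv h5
      refine ⟨_, _, _, a1, a2, a3, ?_⟩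
      rw [b1, b2, b3]
      exact Eqv.refl v

end Pool.Agent.Helper92.UN
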