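import Pool.Agent.Helper92.UN.Pro

/-!
# Project UN: a permutation which preserves the relations respects the reflections

`stepB`: if `P` fixes the unit vectors orthogonal to `a` then `P x` is `c a + w` (up to norm one) for
`x = α a + w`, with `nm c = nm α`. `stepD`: if `P` fixes moreover the unit vectors `x` with
`2 nm (h x a) = 1` then `P` is the identity. `core`: `P = T⁻¹ (rf (T a)) T` fixes the unit vectors orthogonal
to `a`, and sends a unit vector `x` with `2 nm (h x a) = 1` to a vector orthogonal to `x`, so to `rf a x`;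
so `rf a ∘ P` satisfies `stepD`.
-/

set_option autoImplicit false

namespace Pool.Agent.Helper92.UN

open Pool.Agent.Helper81.UT

variable {K V : Type*} [Field K] [StarRing K] [AddCommGroup V] [Module K V] {h : V → V → K}

theorem sub_mem_perp1 (hh : Herm h) {a : V} (ha : Un h a) (y : V) :
    y - h y a • a ∈ perpSp hh a := by
  rw [mem_perpSp, sub_left92 hh, hh.smul, ha, mul_one, sub_self]

theorem eqv_of_smul {x y : V} {b : K} (hb : nm b = 1) (e : x = b • y) : Eqv K x y :=
  Eqv.symm ⟨b, hb, e⟩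

theorem norm_split (hh : Herm h) {a w : V} (ha : Un h a) (hw : h w a = 0) (c : K) :
    h (c • a + w) (c • a + w) = nm c + h w w := by
  rw [norm_comb1 hh, ha, hh.eq_zero_comm.1 hw, mul_zero, trc, star_zero]
  ring

theorem stepB [Finite K] [FiniteDimensional K V] (hh : Herm h) (h2 : (2 : K) ≠ 0)
    (hstar : ∃ x : K, star x ≠ x) (hdim : 3 ≤ Module.finrank K V) {P P' : V → V}
    (hP : LU h P P') {a : V} (ha : Un h a)
    (hfix : ∀ y, Un h y → h y a = 0 → Eqv K (P y) y) {x : V} (hx : Un h x) :
    ∃ c : K, nm c = nm (h x a) ∧ Eqv K (P x) (c • a + (x - h x a • a)) := by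
  have haa : h a a ≠ 0 := by
    rw [ha]
    exact one_ne_zero
  have hx1 : Un h (P x) := hP.un x hx
  have hxw : ∀ (x y : V), h y a = 0 → h y (x - h x a • a) = h y x := by
    intro x y hy
    rw [sub_right92 hh, hh.smul_right, hy, mul_zero, sub_zero]
  have hdimW : 2 ≤ Module.finrank K (perpSp hh a) := by
    have := finrank_perp hh haa
    omega
  obtain ⟨b, hb, hbw⟩ := prop_of_rel (herm_perp hh haa) h2 hstar hdimW
    (w := ⟨_, sub_mem_perp1 hh ha x⟩) (w₁ := ⟨_, sub_mem_perp1 hh ha (P x)⟩)
    (by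
      intro y hy
      have hy' : Un h (y : V) := hy
      have h3 := hfix y hy' y.2
      show h (y : V) (P x - h (P x) a • a) = 0 ↔ h (y : V) (x - h x a • a) = 0
      rw [hxw _ _ y.2, hxw _ _ y.2, ← hP.perp y x hy' hx, hh.zero_congr h3 (Eqv.refl (P x))])
    (by
      intro y hy
      have hy' : Un h (y : V) := hy
      have h3 := hfix y hy' y.2
      show nm (h (y : V) (P x - h (P x) a • a)) = 1 ↔ nm (h (y : V) (x - h x a • a)) = 1
      rw [hxw _ _ y.2, hxw _ _ y.2, ← hP.one y x hy' hx, hh.nm_congr h3 (Eqv.refl (P x))])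
  have hbw' : P x - h (P x) a • a = b • (x - h x a • a) := congrArg Subtype.val hbw
  have hb0 : b ≠ 0 := by
    rintro rfl
    rw [nm_zero] at hb
    exact zero_ne_one hb
  have e1 : P x = b • ((b⁻¹ * h (P x) a) • a + (x - h x a • a)) := by
    rw [smul_add, ← hbw', smul_smul, ← mul_assoc, mul_inv_cancel₀ hb0, one_mul]
    module
  have hE : Eqv K (P x) ((b⁻¹ * h (P x) a) • a + (x - h x a • a)) := eqv_of_smul hb e1
  refine ⟨b⁻¹ * h (P x) a, ?_, hE⟩
  have h4 := un_congr hh hx1 hE
  have h5 : h (x - h x a • a) a = 0 := sub_mem_perp1 hh ha x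
  have h6 : x = h x a • a + (x - h x a • a) := by module
  have h7 := norm_split hh ha h5 (b⁻¹ * h (P x) a)
  have h8 := norm_split hh ha h5 (h x a)
  rw [← h6] at h8
  rw [h4] at h7
  rw [hx] at h8
  exact add_right_cancel (h7.symm.trans h8)

theorem stepD [Finite K] [FiniteDimensional K V] (hh : Herm h) (h2 : (2 : K) ≠ 0)
    (hstar : ∃ x : K, star x ≠ x) (hdim : 3 ≤ Module.finrank K V) {P P' : V → V}
    (hP : LU h P P') {a : V} (ha : Un h a)
    (hfix : ∀ y, Un h y → h y a = 0 → Eqv K (P y) y)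
    (hhalf : ∀ y, Un h y → 2 * nm (h y a) = 1 → Eqv K (P y) y) {x : V} (hx : Un h x) :
    Eqv K (P x) x := by
  obtain ⟨c, hc, hE⟩ := stepB hh h2 hstar hdim hP ha hfix hx
  have haa : h a a ≠ 0 := by
    rw [ha]
    exact one_ne_zero
  obtain ⟨w, hw⟩ : ∃ w, w = x - h x a • a := ⟨_, rfl⟩
  have hwa : h w a = 0 := by
    rw [hw]
    exact sub_mem_perp1 hh ha x
  have hxe : x = h x a • a + w := by rw [hw]; module
  obtain ⟨α, hα⟩ : ∃ α, α = h x a := ⟨_, rfl⟩
  rw [← hw] at hE
  rw [← hα] at hc hxe
  by_cases hα0 : α = 0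
  · exact hfix x hx (hα.symm.trans hα0)
  by_cases hw0 : w = 0
  · -- `x` is a multiple of `a`
    rw [hw0, add_zero] at hE hxe
    have h3 : nm α = 1 := by
      have h4 := norm_split hh ha (hh.zero_left a) α
      rw [add_zero, ← hxe, hx, hh.zero_left, add_zero] at h4
      exact h4.symm
    have h5 : Eqv K a x := ⟨α, h3, hxe⟩
    have h6 : Eqv K a (c • a) := ⟨c, hc.trans h3, rfl⟩
    exact (hE.trans h6.symm).trans h5
  have hdimW : 2 ≤ Module.finrank K (perpSp hh a) := by
    have := finrank_perp hh haa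
    omega
  obtain ⟨e, he⟩ := norm_surj h2 hstar (s := (2 : K)⁻¹) star_half
  have he0 : e ≠ 0 := by
    rintro rfl
    rw [nm_zero] at he
    exact inv_ne_zero h2 he.symm
  have hβ : -(α * star e) ≠ 0 := neg_ne_zero.2 (mul_ne_zero hα0 fun h0 => he0 (star_eq_zero.1 h0))
  obtain ⟨y', hy1, hy2⟩ := exists_vec (herm_perp hh haa) h2 hstar hdimW
    (w := ⟨w, hwa⟩) (fun h0 => hw0 (congrArg Subtype.val h0)) hβ (s := (2 : K)⁻¹) star_half
  have hy1' : h w (y' : V) = -(α * star e) := hy1
  have hy2' : h (y' : V) (y' : V) = 2⁻¹ := hy2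
  have hya : h (y' : V) a = 0 := y'.2
  have hay : h a (y' : V) = 0 := hh.eq_zero_comm.1 hya
  have haw : h a w = 0 := hh.eq_zero_comm.1 hwa
  have h22 : (2 : K) * 2⁻¹ = 1 := mul_inv_cancel₀ h2
  obtain ⟨y, hy⟩ : ∃ y, y = e • a + (y' : V) := ⟨_, rfl⟩
  have hyu : Un h y := by
    rw [hy, Un, norm_split hh ha hya, he, hy2']
    linear_combination h22
  have hyaa : h y a = e := by
    rw [hy, hh.add, hh.smul, ha, hya, mul_one, add_zero]
  have hyP := hhalf y hyu (by rw [hyaa, he, h22])
  have key : ∀ d : K, h (d • a + w) y = d * star e - α * star e := by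
    intro d
    rw [hy, hh.add, hh.smul, hh.add_right, hh.add_right, hh.smul_right, hh.smul_right, ha, hay, hwa,
      hy1']
    ring
  have hxy : h x y = 0 := by
    rw [hxe, key, sub_self]
  have h3 : h (P x) (P y) = 0 := (hP.perp x y hx hyu).2 hxy
  have h4 : h (c • a + w) y = 0 := (hh.zero_congr hE hyP).2 h3
  rw [key, ← sub_mul] at h4
  have h5 : c = α := by
    rcases mul_eq_zero.1 h4 with h6 | h6
    · exact sub_eq_zero.1 h6
    · exact absurd (star_eq_zero.1 h6) he0
  rw [h5, ← hxe] at hE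
  exact hE

/-- The reflection preserves the relations. -/
theorem lu_comp_rf (hh : Herm h) {P P' : V → V} (hP : LU h P P') {a : V} (ha : Un h a) :
    LU h (fun x => rf h a (P x)) (fun x => P' (rf h a x)) where
  un u hu := un_rf hh ha (hP.un u hu)
  un' u hu := hP.un' _ (un_rf hh ha hu)
  eqv u v hu hv := by
    rw [← hP.eqv u v hu hv]
    constructor
    · intro e
      have h3 := rf_congr hh (Eqv.refl a) e
      rw [rf_rf hh ha, rf_rf hh ha] at h3
      exact h3
    · intro e
      exact rf_congr hh (Eqv.refl a) e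
  left u hu := by
    show Eqv K (P' (rf h a (rf h a (P u)))) u
    rw [rf_rf hh ha]
    exact hP.left u hu
  right u hu := by
    show Eqv K (rf h a (P (P' (rf h a u)))) u
    have h3 := rf_congr hh (Eqv.refl a) (hP.right _ (un_rf hh ha hu))
    rw [rf_rf hh ha] at h3
    exact h3
  perp u v hu hv := by
    rw [h_rf hh ha]
    exact hP.perp u v hu hv
  one u v hu hv := by
    rw [h_rf hh ha]
    exact hP.one u v hu hv

/-- `T'` is a lift as well. -/
theorem LU.symm (hh : Herm h) {T T' : V → V} (hT : LU h T T') : LU h T' T where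
  un := hT.un'
  un' := hT.un
  eqv u v hu hv := by
    rw [← hT.eqv _ _ (hT.un' u hu) (hT.un' v hv)]
    have h1 := hT.right u hu
    have h3 := hT.right v hv
    exact ⟨fun e => (h1.symm.trans e).trans h3, fun e => (h1.trans e).trans h3.symm⟩
  left := hT.right
  right := hT.left
  perp u v hu hv := by
    rw [← hT.perp _ _ (hT.un' u hu) (hT.un' v hv),
      hh.zero_congr (hT.right u hu).symm (hT.right v hv).symm]
  one u v hu hv := by
    rw [← hT.one _ _ (hT.un' u hu) (hT.un' v hv),
      hh.nm_congr (hT.right u hu).symm (hT.right v hv).symm]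

/-- Composition. -/
theorem LU.comp {T T' S S' : V → V} (hT : LU h T T') (hS : LU h S S') :
    LU h (fun x => T (S x)) (fun x => S' (T' x)) where
  un u hu := hT.un _ (hS.un u hu)
  un' u hu := hS.un' _ (hT.un' u hu)
  eqv u v hu hv := by
    rw [hT.eqv _ _ (hS.un u hu) (hS.un v hv), hS.eqv u v hu hv]
  left u hu := by
    have h1 := hT.left _ (hS.un u hu)
    have h3 := (hS.eqv _ _ (hS.un' _ (hT.un' _ (hT.un _ (hS.un u hu)))) hu).1
    have h4 := hS.right _ (hT.un' _ (hT.un _ (hS.un u hu)))
    exact h3 (h4.trans h1)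
  right u hu := by
    have h1 := hS.right _ (hT.un' u hu)
    have h3 := (hT.eqv _ _ (hS.un _ (hS.un' _ (hT.un' u hu))) (hT.un' u hu)).2 h1
    exact h3.trans (hT.right u hu)
  perp u v hu hv := by
    rw [hT.perp _ _ (hS.un u hu) (hS.un v hv), hS.perp u v hu hv]
  one u v hu hv := by
    rw [hT.one _ _ (hS.un u hu) (hS.un v hv), hS.one u v hu hv]

/-- The identity. -/
theorem lu_id : LU h (fun x : V => x) (fun x => x) where
  un _ hu := hu
  un' _ hu := hu
  eqv _ _ _ _ := Iff.rfl
  left u _ := Eqv.refl u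
  right u _ := Eqv.refl u
  perp _ _ _ _ := Iff.rfl
  one _ _ _ _ := Iff.rfl

/-- The main step. -/
theorem core [Finite K] [FiniteDimensional K V] (hh : Herm h) (h2 : (2 : K) ≠ 0)
    (hstar : ∃ x : K, star x ≠ x) (hdim : 3 ≤ Module.finrank K V) {T T' : V → V}
    (hT : LU h T T')
    (hhalf : ∀ u v, Un h u → Un h v → 2 * nm (h u v) = 1 → 2 * nm (h (T u) (T v)) = 1)
    {a x : V} (ha : Un h a) (hx : Un h x) :
    Eqv K (T (rf h a x)) (rf h (T a) (T x)) := by
  have hTa := hT.un a ha
  -- the permutation `P`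
  have hP : LU h (fun x => T' (rf h (T a) (T x))) (fun x => T' (rf h (T a) (T x))) :=
    (hT.symm hh).comp (lu_comp_rf hh hT hTa)
  have hPfix : ∀ y, Un h y → h y a = 0 → Eqv K (T' (rf h (T a) (T y))) y := by
    intro y hy hya
    rw [rf_perp ((hT.perp y a hy ha).2 hya)]
    exact hT.left y hy
  have hPhalf : ∀ y, Un h y → 2 * nm (h y a) = 1 → h (T' (rf h (T a) (T y))) y = 0 := by
    intro y hy hya
    have hTy := hT.un y hy
    have hr := un_rf hh hTa hTy
    have h3 := hhalf y a hy ha hya
    have h4 : h (rf h (T a) (T y)) (T y) = 0 := by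
      have h5 : h (T a) (T y) = star (h (T y) (T a)) := (hh.symm _ _).symm
      rw [rf, sub_left92 hh, hh.smul, hTy, h5]
      rw [nm] at h3
      linear_combination -h3
    have h6 := (hh.zero_congr (hT.right _ hr).symm (Eqv.refl (T y))).2 h4
    exact (hT.perp _ y (hT.un' _ hr) hy).1 h6
  -- `rf a ∘ P` is the identity
  have hQ := lu_comp_rf hh hP ha
  have hfin : Eqv K (rf h a (T' (rf h (T a) (T x)))) x := by
    refine stepD hh h2 hstar hdim hQ ha ?_ ?_ hx
    · intro y hy hya
      have h3 := rf_congr hh (Eqv.refl a) (hPfix y hy hya)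
      rw [rf_perp hya] at h3
      exact h3
    · intro y hy hya
      obtain ⟨c, hc, hE⟩ := stepB hh h2 hstar hdim hP ha hPfix hy
      have h3 := hPhalf y hy hya
      have h4 := (hh.zero_congr hE (Eqv.refl y)).2 h3
      have hw : h (y - h y a • a) a = 0 := sub_mem_perp1 hh ha y
      obtain ⟨w, hwd⟩ : ∃ w, w = y - h y a • a := ⟨_, rfl⟩
      have hye : y = h y a • a + w := by rw [hwd]; module
      obtain ⟨α, hα⟩ : ∃ α, α = h y a := ⟨_, rfl⟩
      rw [← hwd] at hw h4 hE
      rw [← hα] at hc hye hya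
      have haw : h a w = 0 := hh.eq_zero_comm.1 hw
      have h5 : nm α + h w w = 1 := by
        rw [← norm_split hh ha hw, ← hye]
        exact hy
      have h6 : h (c • a + w) y = c * star α + h w w := by
        conv_lhs => rw [hye]
        rw [hh.add, hh.smul, hh.add_right, hh.add_right, hh.smul_right, hh.smul_right, ha, haw, hw]
        ring
      rw [h6] at h4
      have hsα : star α ≠ 0 := by
        intro h0
        rw [star_eq_zero] at h0
        rw [h0, nm_zero, mul_zero] at hya
        exact zero_ne_one hya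
      have h7 : c = -α := by
        apply mul_right_cancel₀ hsα
        rw [nm] at h5 hya
        linear_combination h4 - h5 + hya
      have h8 : c • a + w = rf h a y := by
        have h9 : rf h a y = -α • a + w := by
          rw [rf, ← hα]
          conv_lhs => rw [hye]
          module
        rw [h9, h7]
      rw [h8] at hE
      have h9 := rf_congr hh (Eqv.refl a) hE
      rw [rf_rf hh ha] at h9
      exact h9
  have h3 := rf_congr hh (Eqv.refl a) hfin
  rw [rf_rf hh ha] at h3
  have hrx := un_rf hh ha hx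
  have hrT := un_rf hh hTa (hT.un x hx)
  have h4 := (hT.eqv _ _ (hT.un' _ hrT) hrx).2 h3
  exact h4.symm.trans (hT.right _ hrT)

end Pool.Agent.Helper92.UN
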