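import Pool.Agent.Helper81.UT.Defs

/-!
# Project UN (MP_0d9fdb_al): the coloured graph of the reflections of a unitary group, odd characteristic

`K` is a finite field of characteristic not two with a non trivial involution `star`, `h` a
nondegenerate hermitian form (`Herm h`) on a space of dimension at least three, `nm x = x * star x`.
`Un h u`: `h u u = 1`. `rf h u` is the reflection `x ↦ x - 2 h x u • u` of the unit vector `u`; two unit
vectors give the same reflection iff they are equal up to a scalar of norm one, `Eqv K u v`. For `u`, `v`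
not equivalent the order of `rf h u ∘ rf h v` is two iff `h u v = 0`, it is the characteristic iff
`nm (h u v) = 1`, and it is four iff `2 * nm (h u v) = 1`.
`LU h T T'`: `T`, `T'` lift mutually inverse permutations of the unit vectors up to norm one which
preserve the first two relations.
-/

set_option autoImplicit false

namespace Pool.Agent.Helper92.UN

open Pool.Agent.Helper81.UT

variable {K V : Type*} [Field K] [StarRing K] [AddCommGroup V] [Module K V]

/-- `u` is a unit vector. -/
def Un (h : V → V → K) (u : V) : Prop := h u u = 1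

/-- The reflection of the unit vector `u`. -/
def rf (h : V → V → K) (u x : V) : V := x - (2 * h x u) • u

/-- `T` and `T'` lift mutually inverse permutations of the unit vectors up to norm one which preserve
`h u v = 0` and `nm (h u v) = 1`. -/
structure LU (h : V → V → K) (T T' : V → V) : Prop where
  un : ∀ u, Un h u → Un h (T u)
  un' : ∀ u, Un h u → Un h (T' u)
  eqv : ∀ u v, Un h u → Un h v → (Eqv K (T u) (T v) ↔ Eqv K u v)
  left : ∀ u, Un h u → Eqv K (T' (T u)) u
  right : ∀ u, Un h u → Eqv K (T (T' u)) u
  perp : ∀ u v, Un h u → Un h v → (h (T u) (T v) = 0 ↔ h u v = 0)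
  one : ∀ u v, Un h u → Un h v → (nm (h (T u) (T v)) = 1 ↔ nm (h u v) = 1)

/-! ### Basic facts -/

variable {h : V → V → K}

theorem star_two : star (2 : K) = 2 := by
  rw [← one_add_one_eq_two, star_add, star_one]

theorem sub_left92 (hh : Herm h) (x y z : V) : h (x - y) z = h x z - h y z := by
  rw [sub_eq_add_neg, hh.add, hh.neg_left, sub_eq_add_neg]

theorem sub_right92 (hh : Herm h) (x y z : V) : h x (y - z) = h x y - h x z := by
  rw [← hh.symm, sub_left92 hh, star_sub, hh.symm, hh.symm]

theorem ne_zero_of_unit (hh : Herm h) {u : V} (hu : Un h u) : u ≠ 0 := by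
  rintro rfl
  rw [Un, hh.zero_left] at hu
  exact zero_ne_one hu

theorem un_congr (hh : Herm h) {u v : V} (hu : Un h u) (e : Eqv K u v) : Un h v := by
  obtain ⟨m, hm, rfl⟩ := e
  rw [Un, hh.smul, hh.smul_right, hu, mul_one]
  exact hm

/-- `h (rf u x) (rf u y) = h x y`. -/
theorem h_rf (hh : Herm h) {u : V} (hu : Un h u) (x y : V) :
    h (rf h u x) (rf h u y) = h x y := by
  have h1 : h y u = star (h u y) := (hh.symm u y).symm
  rw [rf, rf, sub_left92 hh, sub_right92 hh, sub_right92 hh, hh.smul, hh.smul, hh.smul_right,
    hh.smul_right, hu, star_mul, star_two, h1, star_star]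
  ring

theorem rf_rf (hh : Herm h) {u : V} (hu : Un h u) (x : V) : rf h u (rf h u x) = x := by
  have h1 : h (rf h u x) u = -h x u := by
    rw [rf, sub_left92 hh, hh.smul, hu]
    ring
  rw [rf, h1, rf]
  module

theorem un_rf (hh : Herm h) {u x : V} (hu : Un h u) (hx : Un h x) : Un h (rf h u x) := by
  rw [Un, h_rf hh hu]
  exact hx

omit [StarRing K] in
theorem rf_perp {u x : V} (hx : h x u = 0) : rf h u x = x := by
  rw [rf, hx, mul_zero, zero_smul, sub_zero]

omit [StarRing K] in
theorem rf_self {u : V} (hu : Un h u) : rf h u u = -u := by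
  rw [rf, hu]
  module

theorem eqv_neg (x : V) : Eqv K x (-x) :=
  ⟨-1, by rw [nm, star_neg, star_one, neg_mul_neg, one_mul], by rw [neg_smul, one_smul]⟩

/-- `rf` respects the classes. -/
theorem rf_congr (hh : Herm h) {u x u' x' : V} (e : Eqv K u u') (f : Eqv K x x') :
    Eqv K (rf h u x) (rf h u' x') := by
  obtain ⟨m, hm, rfl⟩ := e
  obtain ⟨n, hn, rfl⟩ := f
  refine ⟨n, hn, ?_⟩
  rw [rf, rf, hh.smul, hh.smul_right, smul_sub, smul_smul, smul_smul]
  congr 2
  rw [nm] at hm
  linear_combination (2 * n * h x u) * hm

theorem nm_two_eq {c : K} (hc : star c = c) : nm c = c * c := by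
  rw [nm, hc]

end Pool.Agent.Helper92.UN
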