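import Pool.Agent.Helper92.UN.Cha
import Pool.Agent.Helper2.RO.Ext

/-!
# Project UN: the theorem for a group of isometries modulo scalars

`ρ : G → GL(V)` is a representation by isometries, `π : G → L` is onto and its kernel consists of the
elements which act as scalars, and every reflection of a unit vector is, up to a scalar, in the image of
`ρ`. `Df` is the set of the images in `L` of the elements of `G` which act as a multiple of a reflection.
-/

set_option autoImplicit false

namespace Pool.Agent.Helper92.UN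

open Pool.Agent.Helper81.UT

variable {K V G L : Type*} [Field K] [StarRing K] [AddCommGroup V] [Module K V] {h : V → V → K}
  [Group G] [Group L]

/-- `g` acts as a multiple of the reflection of `u`. -/
def IsR (h : V → V → K) (ρ : G →* (V ≃ₗ[K] V)) (u : V) (g : G) : Prop :=
  ∃ c : K, ∀ x, ρ g x = c • rf h u x

/-- The images of the elements which act as a multiple of a reflection. -/
def Df (h : V → V → K) (ρ : G →* (V ≃ₗ[K] V)) (π : G →* L) : Set L :=
  {a | ∃ g u, Un h u ∧ IsR h ρ u g ∧ π g = a}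

/-- The hypotheses. -/
structure Hy (h : V → V → K) (ρ : G →* (V ≃ₗ[K] V)) (π : G →* L) : Prop where
  hh : Herm h
  h2 : (2 : K) ≠ 0
  geo : Geo h
  hdim : 3 ≤ Module.finrank K V
  iso : ∀ g x y, h (ρ g x) (ρ g y) = h x y
  surj : Function.Surjective π
  ker : ∀ g, π g = 1 ↔ ∃ c : K, ∀ x, ρ g x = c • x
  refl : ∀ u, Un h u → ∃ g, IsR h ρ u g

variable {ρ : G →* (V ≃ₗ[K] V)} {π : G →* L}

omit [StarRing K] in
theorem rho_mul_apply (g g' : G) (x : V) : ρ (g * g') x = ρ g (ρ g' x) := by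
  rw [map_mul]
  rfl

omit [StarRing K] in
theorem rho_inv_apply (g : G) (x : V) : ρ g (ρ g⁻¹ x) = x := by
  rw [← rho_mul_apply, mul_inv_cancel, map_one]
  rfl

omit [StarRing K] in
theorem rho_inv_apply' (g : G) (x : V) : ρ g⁻¹ (ρ g x) = x := by
  rw [← rho_mul_apply, inv_mul_cancel, map_one]
  rfl

theorem un_rho (hy : Hy h ρ π) (g : G) {u : V} (hu : Un h u) : Un h (ρ g u) := by
  rw [Un, hy.iso]
  exact hu

/-- Two elements with proportional actions have the same image. -/
theorem pi_eq (hy : Hy h ρ π) {g g' : G} {c : K} (H : ∀ x, ρ g x = c • ρ g' x) : π g = π g' := by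
  have h1 : π (g * g'⁻¹) = 1 := by
    rw [hy.ker]
    refine ⟨c, fun x => ?_⟩
    rw [rho_mul_apply, H, rho_inv_apply]
  rw [map_mul, map_inv] at h1
  exact mul_inv_eq_one.1 h1

theorem nm_of_isR (hy : Hy h ρ π) {u : V} (hu : Un h u) {g : G} {c : K}
    (H : ∀ x, ρ g x = c • rf h u x) : nm c = 1 := by
  have h1 := hy.iso g u u
  rw [H, hy.hh.smul, hy.hh.smul_right, h_rf hy.hh hu, hu, mul_one] at h1
  exact h1

theorem isR_eqv (hy : Hy h ρ π) {u v : V} (hu : Un h u) (e : Eqv K u v) {g g' : G}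
    (hg : IsR h ρ u g) (hg' : IsR h ρ v g') : π g = π g' := by
  obtain ⟨c, hc⟩ := hg
  obtain ⟨c', hc'⟩ := hg'
  have hv := un_congr hy.hh hu e
  have hc'1 := nm_of_isR hy hv hc'
  have hc'0 : c' ≠ 0 := by
    rintro rfl
    rw [nm_zero] at hc'1
    exact zero_ne_one hc'1
  have hrf : ∀ x, rf h u x = rf h v x := by
    intro x
    rw [← Rf_apply hy.hh hu, ← Rf_apply hy.hh hv, (Rf_eq_iff hy.hh hy.h2 hu hv).2 e]
  apply pi_eq hy (c := c * c'⁻¹)
  intro x
  rw [hc, hc', hrf, smul_smul, mul_assoc, inv_mul_cancel₀ hc'0, mul_one]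

/-- Powers of a product. -/
theorem rho_pow_mul {u v : V} (hh : Herm h) (hu : Un h u) (hv : Un h v) {g g' : G} {c c' : K}
    (hc : ∀ x, ρ g x = c • rf h u x) (hc' : ∀ x, ρ g' x = c' • rf h v x) (k : ℕ) (x : V) :
    ρ ((g * g') ^ k) x = (c * c') ^ k • ((Rf hh hu * Rf hh hv) ^ k) x := by
  induction k with
  | zero =>
    rw [pow_zero, pow_zero, pow_zero, map_one, one_smul]
  | succ k ih =>
    rw [pow_succ', pow_succ' (Rf hh hu * Rf hh hv), rho_mul_apply, ih, map_smul, rho_mul_apply, hc',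
      map_smul, hc]
    show _ = _ • rf h u (rf h v (((Rf hh hu * Rf hh hv) ^ k) x))
    rw [smul_smul, smul_smul]
    congr 1
    ring

variable [Finite K] [FiniteDimensional K V]

omit [Finite K] in
theorem order_pi (hy : Hy h ρ π) {u v : V} (hu : Un h u) (hv : Un h v) {g g' : G}
    (hg : IsR h ρ u g) (hg' : IsR h ρ v g') :
    orderOf (π g * π g') = orderOf (Rf hy.hh hu * Rf hy.hh hv) := by
  obtain ⟨c, hc⟩ := hg
  obtain ⟨c', hc'⟩ := hg'
  have hh := hy.hh
  have hc1 := nm_of_isR hy hu hc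
  have hc'1 := nm_of_isR hy hv hc'
  have hc0 : c ≠ 0 := by
    rintro rfl
    rw [nm_zero] at hc1
    exact zero_ne_one hc1
  have hc'0 : c' ≠ 0 := by
    rintro rfl
    rw [nm_zero] at hc'1
    exact zero_ne_one hc'1
  rw [orderOf_eq_orderOf_iff]
  intro k
  rw [← map_mul, ← map_pow, hy.ker]
  constructor
  · rintro ⟨m, hm⟩
    obtain ⟨w, hw0, hwu, hwv⟩ := exists_perp2 hh hy.hdim u v
    have hfix : ∀ k : ℕ, ((Rf hh hu * Rf hh hv) ^ k) w = w := by
      intro k
      induction k with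
      | zero => rfl
      | succ k ih =>
        rw [pow_succ']
        show rf h u (rf h v (((Rf hh hu * Rf hh hv) ^ k) w)) = w
        rw [ih, rf_perp hwv, rf_perp hwu]
    have h1 := hm w
    rw [rho_pow_mul hh hu hv hc hc', hfix] at h1
    have h3 : (c * c') ^ k = m := by
      have h4 : ((c * c') ^ k - m) • w = 0 := by rw [sub_smul, h1, sub_self]
      rcases smul_eq_zero.1 h4 with h5 | h5
      · exact sub_eq_zero.1 h5
      · exact absurd h5 hw0
    apply LinearEquiv.ext
    intro x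
    have h4 := hm x
    rw [rho_pow_mul hh hu hv hc hc', h3] at h4
    have hm0 : m ≠ 0 := by
      rw [← h3]
      exact pow_ne_zero _ (mul_ne_zero hc0 hc'0)
    exact smul_right_injective V hm0 h4
  · intro h1
    refine ⟨(c * c') ^ k, fun x => ?_⟩
    rw [rho_pow_mul hh hu hv hc hc', h1]
    rfl

omit [Finite K] [FiniteDimensional K V] in
theorem isR_conj (hy : Hy h ρ π) {u : V} {g r : G} (hr : IsR h ρ u r) :
    IsR h ρ (ρ g u) (g * r * g⁻¹) := by
  obtain ⟨c, hc⟩ := hr
  refine ⟨c, fun x => ?_⟩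
  obtain ⟨y, rfl⟩ : ∃ y, x = ρ g y := ⟨_, (rho_inv_apply g x).symm⟩
  rw [rho_mul_apply, rho_mul_apply, rho_inv_apply', hc, map_smul, rf, rf, map_sub, map_smul, hy.iso]

omit [Finite K] [FiniteDimensional K V] in
theorem Df_conj (hy : Hy h ρ π) (g : L) {a : L} (ha : a ∈ Df h ρ π) : g * a * g⁻¹ ∈ Df h ρ π := by
  obtain ⟨g, rfl⟩ := hy.surj g
  obtain ⟨r, u, hu, hr, rfl⟩ := ha
  refine ⟨g * r * g⁻¹, ρ g u, un_rho hy g hu, isR_conj hy hr, ?_⟩
  rw [map_mul, map_mul, map_inv]

omit [Finite K] in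
theorem Df_order (hy : Hy h ρ π) {a : L} (ha : a ∈ Df h ρ π) : orderOf a = 2 := by
  obtain ⟨r, u, hu, ⟨c, hc⟩, rfl⟩ := ha
  have hh := hy.hh
  rw [orderOf_eq_prime_iff]
  constructor
  · rw [pow_two, ← map_mul, hy.ker]
    refine ⟨c * c, fun x => ?_⟩
    rw [rho_mul_apply, hc x, map_smul, hc, rf_rf hh hu, smul_smul]
  · rw [Ne, hy.ker]
    rintro ⟨m, hm⟩
    obtain ⟨w, hw0, hwu, -⟩ := exists_perp2 hh hy.hdim u u
    have h1 := hm w
    have h3 := hm u
    rw [hc, rf_perp hwu] at h1
    rw [hc, rf_self hu, smul_neg, ← neg_smul] at h3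
    have h4 : c = m := by
      have h5 : (c - m) • w = 0 := by rw [sub_smul, h1, sub_self]
      rcases smul_eq_zero.1 h5 with h6 | h6
      · exact sub_eq_zero.1 h6
      · exact absurd h6 hw0
    have h5 : -c = m := by
      have h6 : (-c - m) • u = 0 := by rw [sub_smul, h3, sub_self]
      rcases smul_eq_zero.1 h6 with h7 | h7
      · exact sub_eq_zero.1 h7
      · exact absurd h7 (ne_zero_of_unit hh hu)
    have hc1 := nm_of_isR hy hu hc
    have h6 : (2 : K) * c = 0 := by linear_combination h4 - h5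
    have h7 : c = 0 := (mul_eq_zero.1 h6).resolve_left hy.h2
    rw [h7, nm_zero] at hc1
    exact zero_ne_one hc1

omit [Finite K] [FiniteDimensional K V] in
theorem exists_move (hy : Hy h ρ π) {u v : V} (hu : Un h u) (hv : Un h v) :
    ∃ g : G, Eqv K v (ρ g u) := by
  obtain ⟨w₁, w₂, w₃, h1, h2, h3, hE⟩ := hy.geo.move u v hu hv
  obtain ⟨g1, c1, e1⟩ := hy.refl _ h1
  obtain ⟨g2, c2, e2⟩ := hy.refl _ h2
  obtain ⟨g3, c3, e3⟩ := hy.refl _ h3
  have n1 := nm_of_isR hy h1 e1
  have n2 := nm_of_isR hy h2 e2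
  have n3 := nm_of_isR hy h3 e3
  have key : ∀ (g : G) {x y : V}, Eqv K x y → Eqv K (ρ g x) (ρ g y) := by
    rintro g x y ⟨m, hm, rfl⟩
    exact ⟨m, hm, by rw [map_smul]⟩
  refine ⟨g3 * (g2 * g1), ?_⟩
  rw [rho_mul_apply, rho_mul_apply]
  have f1 : Eqv K (rf h w₁ u) (ρ g1 u) := ⟨c1, n1, e1 u⟩
  have f2 : Eqv K (rf h w₂ (rf h w₁ u)) (ρ g2 (ρ g1 u)) := by
    have f3 : Eqv K (rf h w₂ (rf h w₁ u)) (ρ g2 (rf h w₁ u)) := ⟨c2, n2, e2 _⟩
    exact f3.trans (key g2 f1)
  have f3 : Eqv K (rf h w₃ (rf h w₂ (rf h w₁ u))) (ρ g3 (rf h w₂ (rf h w₁ u))) := ⟨c3, n3, e3 _⟩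
  exact hE.trans (f3.trans (key g3 f2))

omit [Finite K] [FiniteDimensional K V] in
/-- `Df` is one conjugacy class. -/
theorem Df_isConj (hy : Hy h ρ π) {a : L} (ha : a ∈ Df h ρ π) (b : L) :
    b ∈ Df h ρ π ↔ IsConj a b := by
  constructor
  · intro hb
    obtain ⟨r, u, hu, hr, rfl⟩ := ha
    obtain ⟨s, v, hv, hs, rfl⟩ := hb
    obtain ⟨g, e⟩ := exists_move hy hu hv
    rw [isConj_iff]
    refine ⟨π g, ?_⟩
    rw [← map_inv, ← map_mul, ← map_mul]
    exact (isR_eqv hy hv e hs (isR_conj hy hr)).symm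
  · intro hab
    obtain ⟨g, rfl⟩ := isConj_iff.1 hab
    exact Df_conj hy g ha

omit [Finite K] in
/-- Generation in the simple case. -/
theorem Df_closure [IsSimpleGroup L] (hy : Hy h ρ π) {a : L} (ha : a ∈ Df h ρ π) :
    Subgroup.closure (Df h ρ π) = ⊤ := by
  have hn : (Subgroup.closure (Df h ρ π)).Normal := by
    constructor
    intro x hx g
    induction hx using Subgroup.closure_induction with
    | mem x hx => exact Subgroup.subset_closure (Df_conj hy g hx)
    | one =>
      rw [mul_one, mul_inv_cancel]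
      exact Subgroup.one_mem _
    | mul x y _ _ h1 h3 =>
      have h4 : g * (x * y) * g⁻¹ = (g * x * g⁻¹) * (g * y * g⁻¹) := by group
      rw [h4]
      exact Subgroup.mul_mem _ h1 h3
    | inv x _ h1 =>
      have h4 : g * x⁻¹ * g⁻¹ = (g * x * g⁻¹)⁻¹ := by group
      rw [h4]
      exact Subgroup.inv_mem _ h1
  rcases hn.eq_bot_or_eq_top with h1 | h1
  · exfalso
    have h3 : a ∈ Subgroup.closure (Df h ρ π) := Subgroup.subset_closure ha
    rw [h1, Subgroup.mem_bot] at h3
    have h4 := Df_order hy ha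
    rw [h3, orderOf_one] at h4
    exact absurd h4 (by decide)
  · exact h1

/-- The theorem: a permutation of `Df` which preserves the orders of the products is the restriction of an
automorphism of `L`. -/
theorem final [Finite L] (hy : Hy h ρ π) (hgen : Subgroup.closure (Df h ρ π) = ⊤)
    (τ : Equiv.Perm (Df h ρ π))
    (hτ : ∀ a b : Df h ρ π, a ≠ b → orderOf ((τ a : L) * τ b) = orderOf ((a : L) * b)) :
    ∃ φ : MulAut L, ∀ a : Df h ρ π, φ a = τ a := by
  classical
  have hh := hy.hh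
  have h2 := hy.h2
  choose v hvr using fun a : Df h ρ π => (a.2 : ∃ g u, Un h u ∧ IsR h ρ u g ∧ π g = a.1)
  choose w hw using hvr
  -- `v a` is an element of `G`, `w a` the vector
  choose r hr using hy.refl
  let c : ∀ {u : V}, Un h u → Df h ρ π := fun {u} hu => ⟨π (r u hu), r u hu, u, hu, hr u hu, rfl⟩
  have hcval : ∀ {u : V} (hu : Un h u), (c hu : L) = π (r u hu) := fun _ => rfl
  have hord : ∀ {u v : V} (hu : Un h u) (hv : Un h v),
      orderOf ((c hu : L) * (c hv : L)) = orderOf (Rf hh hu * Rf hh hv) :=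
    fun {u v} hu hv => order_pi hy hu hv (hr u hu) (hr v hv)
  have hinv : ∀ {u : V} (hu : Un h u), (c hu : L)⁻¹ = c hu := by
    intro u hu
    have h1 : (c hu : L) ^ 2 = 1 := by
      rw [← Df_order hy (c hu).2]
      exact pow_orderOf_eq_one _
    rw [pow_two] at h1
    exact inv_eq_of_mul_eq_one_left h1
  have hc : ∀ {u v : V} (hu : Un h u) (hv : Un h v), c hu = c hv ↔ Eqv K u v := by
    intro u v hu hv
    rw [← mul_Rf_ne_one hh h2 hu hv, ← orderOf_eq_one_iff, ← hord hu hv, orderOf_eq_one_iff,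
      mul_eq_one_iff_eq_inv, hinv]
    exact Subtype.ext_iff
  have hcw : ∀ a : Df h ρ π, c (hw a).1 = a := by
    intro a
    apply Subtype.ext
    exact (isR_eqv hy (hw a).1 (Eqv.refl _) (hr _ _) (hw a).2.1).trans (hw a).2.2
  let T : V → V := fun u => if hu : Un h u then w (τ (c hu)) else u
  let T' : V → V := fun u => if hu : Un h u then w (τ.symm (c hu)) else u
  have hT : ∀ {u : V} (hu : Un h u), T u = w (τ (c hu)) := fun {u} hu => dif_pos hu
  have hT' : ∀ {u : V} (hu : Un h u), T' u = w (τ.symm (c hu)) := fun {u} hu => dif_pos hu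
  have hTi : ∀ {u : V}, Un h u → Un h (T u) := fun {u} hu => by
    rw [hT hu]
    exact (hw _).1
  have hTi' : ∀ {u : V}, Un h u → Un h (T' u) := fun {u} hu => by
    rw [hT' hu]
    exact (hw _).1
  have hcT : ∀ {u : V} (hu : Un h u), c (hTi hu) = τ (c hu) := by
    intro u hu
    rw [← hcw (τ (c hu)), hc (hTi hu) (hw _).1, hT hu]
    exact Eqv.refl _
  have hcT' : ∀ {u : V} (hu : Un h u), c (hTi' hu) = τ.symm (c hu) := by
    intro u hu
    rw [← hcw (τ.symm (c hu)), hc (hTi' hu) (hw _).1, hT' hu]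
    exact Eqv.refl _
  have heqv : ∀ u v, Un h u → Un h v → (Eqv K (T u) (T v) ↔ Eqv K u v) := by
    intro u v hu hv
    rw [← hc (hTi hu) (hTi hv), hcT hu, hcT hv, τ.apply_eq_iff_eq, hc hu hv]
  -- the orders are preserved
  have hpres : ∀ {u v : V} (hu : Un h u) (hv : Un h v), ¬ Eqv K u v →
      orderOf (Rf hh (hTi hu) * Rf hh (hTi hv)) = orderOf (Rf hh hu * Rf hh hv) := by
    intro u v hu hv e
    rw [← hord (hTi hu) (hTi hv), ← hord hu hv, hcT hu, hcT hv]
    exact hτ (c hu) (c hv) fun h1 => e ((hc hu hv).1 h1)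
  obtain ⟨p, hp⟩ := CharP.exists K
  have hprime : Fact p.Prime := ⟨by
    rcases CharP.char_is_prime_or_zero K p with h3 | h3
    · exact h3
    · exfalso
      subst h3
      have : CharZero K := CharP.charP_to_charZero K
      have : Infinite K := inferInstance
      exact not_finite K⟩
  have hLU : LU h T T' :=
    { un := fun u hu => hTi hu
      un' := fun u hu => hTi' hu
      eqv := heqv
      left := by
        intro u hu
        rw [← hc (hTi' (hTi hu)) hu, hcT' (hTi hu), hcT hu, Equiv.symm_apply_apply]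
      right := by
        intro u hu
        rw [← hc (hTi (hTi' hu)) hu, hcT (hTi' hu), hcT' hu, Equiv.apply_symm_apply]
      perp := by
        intro u v hu hv
        by_cases e : Eqv K u v
        · have h3 := (heqv u v hu hv).2 e
          constructor
          · intro h0
            exact absurd h3 (not_eqv_of_perp hh (hTi hu) h0)
          · intro h0
            exact absurd e (not_eqv_of_perp hh hu h0)
        · have e' : ¬ Eqv K (T u) (T v) := fun he => e ((heqv u v hu hv).1 he)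
          rw [← order_two hh h2 (hTi hu) (hTi hv) e', ← order_two hh h2 hu hv e, hpres hu hv e]
      one := by
        intro u v hu hv
        by_cases e : Eqv K u v
        · have h3 := (heqv u v hu hv).2 e
          have key : ∀ {x y : V}, Un h x → Eqv K x y → nm (h x y) = 1 := by
            intro x y hx hxy
            rw [hh.nm_congr (Eqv.refl x) hxy, hx, nm_one]
          exact ⟨fun _ => key hu e, fun _ => key (hTi hu) h3⟩
        · have e' : ¬ Eqv K (T u) (T v) := fun he => e ((heqv u v hu hv).1 he)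
          rw [← order_char hh h2 p (hTi hu) (hTi hv) e', ← order_char hh h2 p hu hv e, hpres hu hv e] }
  have hhalf : ∀ u v, Un h u → Un h v → 2 * nm (h u v) = 1 → 2 * nm (h (T u) (T v)) = 1 := by
    intro u v hu hv h3
    by_cases e : Eqv K u v
    · exfalso
      rw [hh.nm_congr (Eqv.refl u) e, hu, nm_one] at h3
      have h4 : (1 : K) = 0 := by linear_combination h3
      exact one_ne_zero h4
    · rw [← order_four hh h2 (hTi hu) (hTi hv), hpres hu hv e, order_four hh h2 hu hv]
      exact h3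
  have hcore : ∀ {u v : V} (hu : Un h u) (hv : Un h v), Eqv K (T (rf h u v)) (rf h (T u) (T v)) :=
    fun {u v} hu hv => hy.geo.core T T' hLU hhalf u v hu hv
  have hcj : ∀ {u v : V} (hu : Un h u) (hv : Un h v),
      (c hu : L) * c hv * (c hu : L)⁻¹ = c (un_rf hh hu hv) := by
    intro u v hu hv
    obtain ⟨d, hd⟩ := hr u hu
    have hd1 := nm_of_isR hy hu hd
    have h3 : Eqv K (ρ (r u hu) v) (rf h u v) := Eqv.symm ⟨d, hd1, hd v⟩
    have h4 := isR_eqv hy (un_rho hy _ hv) h3 (isR_conj hy (g := r u hu) (hr v hv))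
      (hr _ (un_rf hh hu hv))
    rw [map_mul, map_mul, map_inv] at h4
    exact h4
  have hclosed : ∀ g : L, ∀ x : Df h ρ π, ∃ y : Df h ρ π, g * x * g⁻¹ = y :=
    fun g x => ⟨⟨_, Df_conj hy g x.2⟩, rfl⟩
  have hgen' : Subgroup.closure (Set.range fun x : Df h ρ π => (x : L)) = ⊤ := by
    rw [Subtype.range_coe]
    exact hgen
  have hfaith : ∀ g : L, (∀ x : Df h ρ π, g * x * g⁻¹ = (x : L)) → g = 1 := by
    intro g hg
    obtain ⟨g, rfl⟩ := hy.surj g
    rw [hy.ker]
    refine hy.geo.scal (ρ g) fun u hu => ?_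
    have h1 := hg (c hu)
    have h3 : c hu = c (un_rho hy g hu) := by
      apply Subtype.ext
      rw [← h1, hcval, hcval, ← map_inv, ← map_mul, ← map_mul]
      exact isR_eqv hy (un_rho hy g hu) (Eqv.refl _) (isR_conj hy (hr u hu)) (hr _ _)
    exact (hc hu (un_rho hy g hu)).1 h3
  obtain ⟨φ, hφ⟩ := Pool.Agent.Helper2.RO.extend (fun x : Df h ρ π => (x : L))
    Subtype.val_injective hclosed hgen' hfaith τ (by
      intro x y z hxyz
      have hz : z = c (un_rf hh (hw x).1 (hw y).1) := by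
        apply Subtype.ext
        rw [← hxyz, ← hcj (hw x).1 (hw y).1, hcw, hcw]
      show (τ x : L) * τ y * (τ x : L)⁻¹ = τ z
      have h1 : τ z = c (un_rf hh (hTi (hw x).1) (hTi (hw y).1)) := by
        rw [hz, ← hcT (un_rf hh (hw x).1 (hw y).1), hc (hTi (un_rf hh (hw x).1 (hw y).1))
          (un_rf hh (hTi (hw x).1) (hTi (hw y).1))]
        exact hcore (hw x).1 (hw y).1
      rw [h1, ← hcj (hTi (hw x).1) (hTi (hw y).1), hcT (hw x).1, hcT (hw y).1, hcw, hcw])
  exact ⟨φ, hφ⟩

end Pool.Agent.Helper92.UN
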