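import Pool.Agent.Helper92.UN.Defs

/-!
# Project UN: the field with involution, odd characteristic

`norm_surj`: with `e = z - star z ≠ 0`, `star e = -e`, `nm (a + b e) = a² - b² e²` for fixed `a`, `b`, and
`a² - b² d = s` has a solution in the fixed field (`exists_root_sum_quadratic`).
-/

set_option autoImplicit false

namespace Pool.Agent.Helper92.UN

open Pool.Agent.Helper81.UT Polynomial

variable {K : Type*} [Field K] [StarRing K]

variable (K) in
/-- The fixed field. -/
def fixF : Subfield K where
  carrier := {x | star x = x}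
  mul_mem' := by
    intro a b ha hb
    show star (a * b) = a * b
    rw [star_mul, ha, hb, mul_comm]
  one_mem' := star_one K
  add_mem' := by
    intro a b ha hb
    show star (a + b) = a + b
    rw [star_add, ha, hb]
  zero_mem' := star_zero K
  neg_mem' := by
    intro a ha
    show star (-a) = -a
    rw [star_neg, ha]
  inv_mem' := by
    intro a ha
    show star a⁻¹ = a⁻¹
    rw [star_inv₀, ha]

theorem exists_skew (hstar : ∃ x : K, star x ≠ x) : ∃ e : K, e ≠ 0 ∧ star e = -e := by
  obtain ⟨x, hx⟩ := hstar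
  refine ⟨x - star x, fun h0 => hx (sub_eq_zero.1 h0).symm, ?_⟩
  rw [star_sub, star_star, neg_sub]

theorem norm_surj [Finite K] (h2 : (2 : K) ≠ 0) (hstar : ∃ x : K, star x ≠ x) {s : K}
    (hs : star s = s) : ∃ x : K, nm x = s := by
  obtain ⟨e, he0, he⟩ := exists_skew hstar
  have hd : star (-(e * e)) = -(e * e) := by
    rw [star_neg, star_mul, he, neg_mul_neg]
  let s' : fixF K := ⟨s, hs⟩
  let d' : fixF K := ⟨-(e * e), hd⟩
  have hd0 : d' ≠ 0 := by
    intro h0
    have h1 : -(e * e) = 0 := congrArg Subtype.val h0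
    rw [neg_eq_zero, mul_self_eq_zero] at h1
    exact he0 h1
  have : Fintype (fixF K) := Fintype.ofFinite _
  have hch : ringChar (fixF K) ≠ 2 := by
    intro h0
    have h1 : ((2 : ℕ) : fixF K) = 0 := (ringChar.spec _ 2).2 (by rw [h0])
    apply h2
    have h3 := congrArg Subtype.val h1
    push_cast at h3
    exact h3
  obtain ⟨a, b, hab⟩ := FiniteField.exists_root_sum_quadratic (R := fixF K)
    (f := X ^ 2 - C s') (g := C d' * X ^ 2) (degree_X_pow_sub_C (by decide) _)
    (by rw [degree_C_mul hd0, degree_X_pow]; rfl) (FiniteField.odd_card_of_char_ne_two hch)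
  rw [eval_sub, eval_pow, eval_X, eval_C, eval_mul, eval_pow, eval_X, eval_C] at hab
  have h3 := congrArg Subtype.val hab
  have ha : star (a : K) = a := a.2
  have hb : star (b : K) = b := b.2
  have h4 : (a : K) ^ 2 - s + -(e * e) * (b : K) ^ 2 = 0 := h3
  refine ⟨(a : K) + b * e, ?_⟩
  rw [nm, star_add, star_mul, ha, hb, he]
  linear_combination h4

theorem trace_surj (h2 : (2 : K) ≠ 0) {s : K} (hs : star s = s) : ∃ x : K, trc x = s := by
  refine ⟨s / 2, ?_⟩
  rw [trc, star_div₀, hs, star_two]
  field_simp
  ring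

theorem star_half : star ((2 : K)⁻¹) = 2⁻¹ := by
  rw [star_inv₀, star_two]

end Pool.Agent.Helper92.UN
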