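import Pool.Agent.Helper92.UN.Fld

/-!
# Project UN: hermitian geometry in odd characteristic
-/

set_option autoImplicit false

namespace Pool.Agent.Helper92.UN

open Pool.Agent.Helper81.UT

variable {K V : Type*} [Field K] [StarRing K] [AddCommGroup V] [Module K V] {h : V → V → K}

theorem norm_comb (hh : Herm h) (c d : K) (x y : V) :
    h (c • x + d • y) (c • x + d • y) = nm c * h x x + trc (c * star d * h x y) + nm d * h y y := by
  rw [hh.add, hh.add_right, hh.add_right, hh.smul, hh.smul, hh.smul, hh.smul, hh.smul_right,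
    hh.smul_right, hh.smul_right, hh.smul_right, trc, nm, nm, star_mul, star_mul, star_star,
    hh.symm x y]
  ring

theorem norm_comb1 (hh : Herm h) (c : K) (x y : V) :
    h (c • x + y) (c • x + y) = nm c * h x x + trc (c * h x y) + h y y := by
  have h1 := norm_comb hh c 1 x y
  rw [one_smul, star_one, mul_one, nm_one, one_mul] at h1
  exact h1

theorem nm_neg (x : K) : nm (-x) = nm x := by
  rw [nm, nm, star_neg, neg_mul_neg]

theorem nm_ne_zero {x : K} (hx : x ≠ 0) : nm x ≠ 0 := fun h0 => hx (nm_eq_zero.1 h0)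

/-- `1/2`. -/
theorem trc_one : trc (1 : K) = 2 := by
  rw [trc, star_one, one_add_one_eq_two]

/-- Scaling to a prescribed value. -/
theorem exists_right (hh : Herm h) {w : V} (hw : w ≠ 0) (β : K) : ∃ y, h w y = β := by
  obtain ⟨y, hy⟩ : ∃ y, h w y ≠ 0 := by
    by_contra hc
    push Not at hc
    exact hw (hh.nondeg w hc)
  refine ⟨star (β / h w y) • y, ?_⟩
  rw [hh.smul_right, star_star, div_mul_cancel₀ _ hy]

theorem exists_non (hh : Herm h) (h2 : (2 : K) ≠ 0) {x : V} (hx : x ≠ 0) : ∃ z, h z z ≠ 0 := by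
  obtain ⟨y, hy⟩ := exists_right hh hx 1
  by_contra hc
  push Not at hc
  have h1 := norm_comb1 hh 1 x y
  rw [hc, hc, hc, hy, mul_one, mul_zero, zero_add, add_zero, trc_one] at h1
  exact h2 h1.symm

/-- The orthogonal complement of a vector. -/
def perpSp (hh : Herm h) (a : V) : Submodule K V where
  carrier := {x | h x a = 0}
  add_mem' := by
    intro x y hx hy
    show h (x + y) a = 0
    rw [hh.add, hx, hy, add_zero]
  zero_mem' := hh.zero_left a
  smul_mem' := by
    intro c x hx
    show h (c • x) a = 0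
    rw [hh.smul, hx, mul_zero]

theorem mem_perpSp (hh : Herm h) {a x : V} : x ∈ perpSp hh a ↔ h x a = 0 := Iff.rfl

theorem sub_mem_perp (hh : Herm h) {a : V} (ha : h a a ≠ 0) (y : V) :
    y - (h y a / h a a) • a ∈ perpSp hh a := by
  rw [mem_perpSp, sub_left92 hh, hh.smul, div_mul_cancel₀ _ ha, sub_self]

theorem herm_perp (hh : Herm h) {a : V} (ha : h a a ≠ 0) :
    Herm (fun x y : perpSp hh a => h (x : V) (y : V)) where
  add x y z := hh.add _ _ _
  smul c x y := hh.smul _ _ _
  symm x y := hh.symm _ _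
  nondeg x hx := by
    apply Subtype.ext
    apply hh.nondeg
    intro y
    have h1 := hx ⟨_, sub_mem_perp hh ha y⟩
    have h3 : h (x : V) (y - (h y a / h a a) • a) = 0 := h1
    have h4 : h (x : V) a = 0 := x.2
    rw [sub_right92 hh, hh.smul_right, h4, mul_zero, sub_zero] at h3
    exact h3

theorem finrank_perp [FiniteDimensional K V] (hh : Herm h) {a : V} (ha : h a a ≠ 0) :
    Module.finrank K (perpSp hh a) + 1 = Module.finrank K V := by
  let f : V →ₗ[K] K :=
    { toFun := fun x => h x a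
      map_add' := fun x y => hh.add _ _ _
      map_smul' := fun c x => hh.smul _ _ _ }
  have h1 : LinearMap.ker f = perpSp hh a := by
    ext x
    exact Iff.rfl
  have h2 : LinearMap.range f = ⊤ := by
    rw [LinearMap.range_eq_top]
    intro c
    refine ⟨(c / h a a) • a, ?_⟩
    show h ((c / h a a) • a) a = c
    rw [hh.smul, div_mul_cancel₀ _ ha]
  have h3 := LinearMap.finrank_range_add_finrank_ker f
  rw [h1, h2, finrank_top, Module.finrank_self] at h3
  omega

theorem exists_perp1 [FiniteDimensional K V] (hh : Herm h) (hdim : 2 ≤ Module.finrank K V) (u : V) :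
    ∃ w, w ≠ 0 ∧ h w u = 0 := by
  let f : V →ₗ[K] K :=
    { toFun := fun x => h x u
      map_add' := fun x y => hh.add _ _ _
      map_smul' := fun c x => hh.smul _ _ _ }
  have h1 : LinearMap.ker f ≠ ⊥ := by
    apply LinearMap.ker_ne_bot_of_finrank_lt
    rw [Module.finrank_self]
    omega
  obtain ⟨w, hw, hw0⟩ := (Submodule.ne_bot_iff _).1 h1
  exact ⟨w, hw0, hw⟩

theorem exists_perp2 [FiniteDimensional K V] (hh : Herm h) (hdim : 3 ≤ Module.finrank K V)
    (u v : V) : ∃ w, w ≠ 0 ∧ h w u = 0 ∧ h w v = 0 := by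
  let f : V →ₗ[K] K × K :=
    { toFun := fun x => (h x u, h x v)
      map_add' := fun x y => by rw [hh.add, hh.add]; rfl
      map_smul' := fun c x => by rw [hh.smul, hh.smul]; rfl }
  have h1 : LinearMap.ker f ≠ ⊥ := by
    apply LinearMap.ker_ne_bot_of_finrank_lt
    rw [Module.finrank_prod, Module.finrank_self]
    omega
  obtain ⟨w, hw, hw0⟩ := (Submodule.ne_bot_iff _).1 h1
  rw [LinearMap.mem_ker] at hw
  have h2 : (h w u, h w v) = ((0 : K), (0 : K)) := hw
  exact ⟨w, hw0, congrArg Prod.fst h2, congrArg Prod.snd h2⟩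

/-- A nonisotropic vector orthogonal to a nonisotropic one. -/
theorem exists_non_perp [FiniteDimensional K V] (hh : Herm h) (h2 : (2 : K) ≠ 0)
    (hdim : 2 ≤ Module.finrank K V) {w : V} (hw : h w w ≠ 0) : ∃ z, h z w = 0 ∧ h z z ≠ 0 := by
  obtain ⟨x, hx0, hx⟩ := exists_perp1 hh hdim w
  have hx' : (⟨x, hx⟩ : perpSp hh w) ≠ 0 := fun h0 => hx0 (congrArg Subtype.val h0)
  obtain ⟨z, hz⟩ := exists_non (herm_perp hh hw) h2 hx'
  exact ⟨z, z.2, hz⟩

/-- A nonisotropic vector orthogonal to any vector, in dimension at least three. -/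
theorem exists_non_perp' [FiniteDimensional K V] (hh : Herm h) (h2 : (2 : K) ≠ 0)
    (hdim : 3 ≤ Module.finrank K V) (w : V) : ∃ z, h z w = 0 ∧ h z z ≠ 0 := by
  by_cases hw : h w w = 0
  · by_cases hw0 : w = 0
    · obtain ⟨x, hx0, -⟩ := exists_perp1 hh (by omega) w
      obtain ⟨z, hz⟩ := exists_non hh h2 hx0
      exact ⟨z, by rw [hw0, hh.zero_right], hz⟩
    · obtain ⟨e, he⟩ := exists_right hh hw0 1
      have hew : h e w = 1 := by rw [← hh.symm, he, star_one]
      obtain ⟨x, hx0, hxw, hxe⟩ := exists_perp2 hh hdim w e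
      obtain ⟨y0, hy0⟩ := exists_right hh hx0 1
      obtain ⟨y, hy⟩ : ∃ y, y = y0 - h y0 w • e := ⟨_, rfl⟩
      have hyw : h y w = 0 := by
        rw [hy, sub_left92 hh, hh.smul, hew, mul_one, sub_self]
      have hxy : h x y = 1 := by
        rw [hy, sub_right92 hh, hh.smul_right, hxe, hy0, mul_zero, sub_zero]
      by_cases hxx : h x x = 0
      · by_cases hyy : h y y = 0
        · refine ⟨(1 : K) • x + y, ?_, ?_⟩
          · rw [hh.add, hh.smul, hxw, hyw, mul_zero, add_zero]
          · rw [norm_comb1 hh, hxx, hyy, hxy, mul_one, mul_zero, zero_add, add_zero, trc_one]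
            exact h2
        · exact ⟨y, hyw, hyy⟩
      · exact ⟨x, hxw, hxx⟩
  · exact exists_non_perp hh h2 (by omega) hw

/-- The nonisotropic vectors of a subspace which contains one span it. -/
theorem span_non (hh : Herm h) (h2 : (2 : K) ≠ 0) {M N : Submodule K V} {z : V} (hz : z ∈ M)
    (hzz : h z z ≠ 0) (H : ∀ y ∈ M, h y y ≠ 0 → y ∈ N) : M ≤ N := by
  have hzN := H z hz hzz
  intro y hy
  by_cases hyy : h y y = 0
  · have h3 := norm_comb1 hh 1 y z
    have h4 := norm_comb1 hh (-1) y z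
    rw [hyy, mul_zero, zero_add, one_mul] at h3
    rw [hyy, mul_zero, zero_add, neg_one_mul] at h4
    have h5 : trc (-h y z) = -trc (h y z) := by
      rw [trc, trc, star_neg]
      ring
    rw [h5] at h4
    by_cases h6 : h ((1 : K) • y + z) ((1 : K) • y + z) = 0
    · have h7 : h ((-1 : K) • y + z) ((-1 : K) • y + z) ≠ 0 := by
        intro h8
        apply hzz
        have h9 : (2 : K) * h z z = 0 := by
          linear_combination -h3 - h4 + h6 + h8
        exact (mul_eq_zero.1 h9).resolve_left h2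
      have h8 := H _ (M.add_mem (M.smul_mem _ hy) hz) h7
      have h9 : y = (-1 : K) • ((-1 : K) • y + z - z) := by module
      rw [h9]
      exact N.smul_mem _ (N.sub_mem h8 hzN)
    · have h8 := H _ (M.add_mem (M.smul_mem _ hy) hz) h6
      have h9 : y = ((1 : K) • y + z - z) := by module
      rw [h9]
      exact N.sub_mem h8 hzN
  · exact H y hy hyy

variable [Finite K]

theorem exists_unit (hh : Herm h) (h2 : (2 : K) ≠ 0) (hstar : ∃ x : K, star x ≠ x) {z : V}
    (hz : h z z ≠ 0) : ∃ c : K, c ≠ 0 ∧ Un h (c • z) := by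
  obtain ⟨c, hc⟩ := norm_surj h2 hstar (s := (h z z)⁻¹) (by rw [star_inv₀, hh.self])
  refine ⟨c, ?_, ?_⟩
  · rintro rfl
    rw [nm_zero] at hc
    exact inv_ne_zero hz hc.symm
  · have h1 : h (c • z) (c • z) = nm c * h z z := by
      rw [hh.smul, hh.smul_right, nm]
      ring
    rw [Un, h1, hc, inv_mul_cancel₀ hz]

/-- Unit vectors suffice. -/
theorem non_of_unit (hh : Herm h) (h2 : (2 : K) ≠ 0) (hstar : ∃ x : K, star x ≠ x)
    (N : Submodule K V) {y : V} (hy : h y y ≠ 0) (H : ∀ c : K, Un h (c • y) → c • y ∈ N) :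
    y ∈ N := by
  obtain ⟨c, hc, hu⟩ := exists_unit hh h2 hstar hy
  exact (N.smul_mem_iff hc).1 (H c hu)

theorem eq_zero_of_unit (hh : Herm h) (h2 : (2 : K) ≠ 0) (hstar : ∃ x : K, star x ≠ x) {x : V}
    (H : ∀ y, Un h y → h y x = 0) : x = 0 := by
  by_contra hx
  obtain ⟨z, hz⟩ := exists_non hh h2 hx
  have h1 : (⊤ : Submodule K V) ≤ perpSp hh x :=
    span_non hh h2 (Submodule.mem_top (x := z)) hz
      (fun y _ hy => non_of_unit hh h2 hstar _ hy fun c hc => H _ hc)
  apply hx
  apply hh.nondeg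
  intro y
  exact hh.eq_zero_comm.1 (h1 (Submodule.mem_top (x := y)))

theorem prop_of_perp (hh : Herm h) (h2 : (2 : K) ≠ 0) (hstar : ∃ x : K, star x ≠ x)
    {w w₁ z : V} (hw : w ≠ 0) (hz : h z w = 0) (hzz : h z z ≠ 0)
    (H : ∀ y, Un h y → h y w = 0 → h y w₁ = 0) : ∃ b : K, w₁ = b • w := by
  have h1 : perpSp hh w ≤ perpSp hh w₁ :=
    span_non hh h2 (z := z) hz hzz
      (fun y hy hyy => non_of_unit hh h2 hstar _ hyy fun c hc => H _ hc (by
        rw [hh.smul, hy, mul_zero]))
  obtain ⟨e, he⟩ := exists_right hh hw 1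
  have hew : h e w = 1 := by rw [← hh.symm, he, star_one]
  refine ⟨star (h e w₁), ?_⟩
  apply sub_eq_zero.1
  apply hh.nondeg
  intro x
  rw [hh.eq_zero_comm, sub_right92 hh, hh.smul_right, star_star]
  have h3 : x - h x w • e ∈ perpSp hh w := by
    rw [mem_perpSp, sub_left92 hh, hh.smul, hew, mul_one, sub_self]
  have h4 := h1 h3
  rw [mem_perpSp, sub_left92 hh, hh.smul] at h4
  linear_combination h4

theorem exists_vec [FiniteDimensional K V] (hh : Herm h) (h2 : (2 : K) ≠ 0)
    (hstar : ∃ x : K, star x ≠ x) (hdim : 2 ≤ Module.finrank K V) {w : V} (hw : w ≠ 0) {β : K}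
    (hβ : β ≠ 0) {s : K} (hs : star s = s) : ∃ y, h w y = β ∧ h y y = s := by
  by_cases hww : h w w = 0
  · obtain ⟨w', hw'⟩ := exists_right hh hw 1
    have h1 : star (s - nm β * h w' w') = s - nm β * h w' w' := by
      rw [star_sub, star_mul, hs, star_nm, hh.self, mul_comm]
    obtain ⟨x, hx⟩ := trace_surj h2 h1
    refine ⟨(x / β) • w + star β • w', ?_, ?_⟩
    · rw [hh.add_right, hh.smul_right, hh.smul_right, hww, hw', star_star]
      ring
    · rw [norm_comb hh, hww, hw', star_star, nm_star, div_mul_cancel₀ _ hβ, mul_one, hx]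
      ring
  · obtain ⟨u, huw, huu⟩ := exists_non_perp hh h2 hdim hww
    have hwu : h w u = 0 := hh.eq_zero_comm.1 huw
    obtain ⟨c, hc⟩ : ∃ c : K, c = star (β / h w w) := ⟨_, rfl⟩
    have h1 : star ((s - nm c * h w w) / h u u) = (s - nm c * h w w) / h u u := by
      rw [star_div₀, star_sub, star_mul, hs, star_nm, hh.self, hh.self, mul_comm]
    obtain ⟨d, hd⟩ := norm_surj h2 hstar h1
    refine ⟨c • w + d • u, ?_, ?_⟩
    · rw [hh.add_right, hh.smul_right, hh.smul_right, hwu, mul_zero, add_zero, hc, star_star,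
        div_mul_cancel₀ _ hww]
    · rw [norm_comb hh, hwu, mul_zero, hd, div_mul_cancel₀ _ huu, trc, star_zero]
      ring

end Pool.Agent.Helper92.UN
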