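import Pool.Agent.Helper92.UN.Geo

/-!
# Project UN: two vectors with the same relations to all unit vectors are proportional
-/

set_option autoImplicit false

namespace Pool.Agent.Helper92.UN

open Pool.Agent.Helper81.UT

variable {K V : Type*} [Field K] [StarRing K] [AddCommGroup V] [Module K V] {h : V → V → K}

/-- Two independent vectors of a plane: a vector orthogonal to both is zero. -/
theorem plane_zero [FiniteDimensional K V] (hh : Herm h) (hdim : Module.finrank K V = 2)
    {w w₁ x : V} (hw : w ≠ 0) (hn : ∀ b : K, w₁ ≠ b • w) (h1 : h w x = 0) (h3 : h w₁ x = 0) :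
    x = 0 := by
  have hli : LinearIndependent K ![w, w₁] := by
    rw [LinearIndependent.pair_iff' hw]
    intro a ha
    exact hn a ha.symm
  have hsp := hli.span_eq_top_of_card_eq_finrank (by rw [Fintype.card_fin, hdim])
  apply hh.nondeg
  intro y
  rw [hh.eq_zero_comm]
  have hy : y ∈ Submodule.span K (Set.range ![w, w₁]) := by
    rw [hsp]
    exact Submodule.mem_top
  have hle : Submodule.span K (Set.range ![w, w₁]) ≤ perpSp hh x := by
    rw [Submodule.span_le]
    rintro _ ⟨i, rfl⟩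
    fin_cases i
    · exact h1
    · exact h3
  exact hle hy

theorem plane_case [Finite K] [FiniteDimensional K V] (hh : Herm h) (h2 : (2 : K) ≠ 0)
    (hstar : ∃ x : K, star x ≠ x) (hdim : Module.finrank K V = 2) {w w₁ : V} (hw : w ≠ 0)
    (hww : h w w = 0) (hn : ∀ b : K, w₁ ≠ b • w)
    (R0 : ∀ y, Un h y → h y w₁ = 0 → h y w = 0)
    (R1 : ∀ y, Un h y → nm (h y w) = 1 → nm (h y w₁) = 1) : False := by
  have hw₁ : w₁ ≠ 0 := by
    intro h0
    exact hn 0 (by rw [h0, zero_smul])
  have hγ : h w₁ w ≠ 0 := fun h0 => hw (plane_zero hh hdim hw hn hww h0)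
  by_cases h11 : h w₁ w₁ = 0
  · obtain ⟨γ, hγd⟩ : ∃ γ, γ = h w₁ w := ⟨_, rfl⟩
    rw [← hγd] at hγ
    have hww₁ : h w w₁ = star γ := by rw [← hh.symm w₁ w, hγd]
    have key : ∀ b : K, trc b = 1 → nm b * nm γ = 1 := by
      intro b hb
      have hu : Un h (b • w + γ⁻¹ • w₁) := by
        rw [Un, norm_comb hh, hww, h11, hww₁, star_inv₀, mul_assoc,
          inv_mul_cancel₀ (fun h0 => hγ (star_eq_zero.1 h0)), mul_one, hb]
        ring
      have h3 : h (b • w + γ⁻¹ • w₁) w = 1 := by
        rw [hh.add, hh.smul, hh.smul, hww, ← hγd, inv_mul_cancel₀ hγ]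
        ring
      have h4 : h (b • w + γ⁻¹ • w₁) w₁ = b * star γ := by
        rw [hh.add, hh.smul, hh.smul, h11, hww₁]
        ring
      have h5 := R1 _ hu (by rw [h3, nm_one])
      rw [h4, nm_mul, nm_star] at h5
      exact h5
    obtain ⟨e, he0, he⟩ := exists_skew hstar
    have hhalf : star ((2 : K)⁻¹) = 2⁻¹ := star_half
    have h22 : (2 : K) * 2⁻¹ = 1 := mul_inv_cancel₀ h2
    have h3 := key 2⁻¹ (by rw [trc, hhalf]; linear_combination h22)
    have h4 := key (2⁻¹ + e) (by rw [trc, star_add, hhalf, he]; linear_combination h22)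
    have h5 : nm (2⁻¹ + e) = nm (2⁻¹ : K) + nm e := by
      rw [nm, nm, nm, star_add, hhalf, he]
      ring
    rw [h5, add_mul, h3, add_eq_left] at h4
    rcases mul_eq_zero.1 h4 with h6 | h6
    · exact nm_ne_zero he0 h6
    · exact nm_ne_zero hγ h6
  · obtain ⟨z, hz⟩ : ∃ z, z = w - (h w w₁ / h w₁ w₁) • w₁ := ⟨_, rfl⟩
    have hzw₁ : h z w₁ = 0 := by
      rw [hz]
      exact sub_mem_perp hh h11 w
    have hz0 : z ≠ 0 := by
      intro h0
      rw [hz, sub_eq_zero] at h0
      have hc : h w w₁ / h w₁ w₁ ≠ 0 := by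
        intro h3
        rw [h3, zero_smul] at h0
        exact hw h0
      obtain ⟨c, hcd⟩ : ∃ c, c = h w w₁ / h w₁ w₁ := ⟨_, rfl⟩
      rw [← hcd] at h0 hc
      apply hn c⁻¹
      rw [h0, smul_smul, inv_mul_cancel₀ hc, one_smul]
    have hwz : w = z + (h w w₁ / h w₁ w₁) • w₁ := by rw [hz]; module
    have hw₁z : h w₁ z = 0 := hh.eq_zero_comm.1 hzw₁
    have hwz2 : h w z = h z z := by
      conv_lhs => rw [hwz]
      rw [hh.add, hh.smul, hw₁z, mul_zero, add_zero]
    have hzz : h z z ≠ 0 := by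
      intro h0
      exact hz0 (plane_zero hh hdim hw hn (hwz2.trans h0) hw₁z)
    obtain ⟨c, hc, hu⟩ := exists_unit hh h2 hstar hzz
    have h3 := R0 _ hu (by rw [hh.smul, hzw₁, mul_zero])
    rw [hh.smul] at h3
    have h4 : h z w = 0 := (mul_eq_zero.1 h3).resolve_left hc
    rw [hh.eq_zero_comm, hwz2] at h4
    exact hzz h4

/-- Two vectors with the same relations to all unit vectors are proportional. -/
theorem prop_of_rel [Finite K] [FiniteDimensional K V] (hh : Herm h) (h2 : (2 : K) ≠ 0)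
    (hstar : ∃ x : K, star x ≠ x) (hdim : 2 ≤ Module.finrank K V) {w w₁ : V}
    (R0 : ∀ y, Un h y → (h y w₁ = 0 ↔ h y w = 0))
    (R1 : ∀ y, Un h y → (nm (h y w₁) = 1 ↔ nm (h y w) = 1)) :
    ∃ b : K, nm b = 1 ∧ w₁ = b • w := by
  by_cases hw : w = 0
  · refine ⟨1, nm_one, ?_⟩
    rw [hw, smul_zero]
    apply eq_zero_of_unit hh h2 hstar
    intro y hy
    rw [R0 y hy, hw, hh.zero_right]
  · have hpr : ∃ b : K, w₁ = b • w := by
      by_cases hcase : h w w = 0 ∧ Module.finrank K V = 2
      · by_contra hc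
        push Not at hc
        exact plane_case hh h2 hstar hcase.2 hw hcase.1 hc (fun y hy => (R0 y hy).1)
          (fun y hy => (R1 y hy).2)
      · obtain ⟨z, hz, hzz⟩ : ∃ z, h z w = 0 ∧ h z z ≠ 0 := by
          by_cases hww : h w w = 0
          · exact exists_non_perp' hh h2 (by
              have : Module.finrank K V ≠ 2 := fun h0 => hcase ⟨hww, h0⟩
              omega) w
          · exact exists_non_perp hh h2 hdim hww
        exact prop_of_perp hh h2 hstar hw hz hzz (fun y hy => (R0 y hy).2)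
    obtain ⟨b, hb⟩ := hpr
    refine ⟨b, ?_, hb⟩
    obtain ⟨y, hy1, hy2⟩ := exists_vec hh h2 hstar hdim hw (one_ne_zero (α := K)) (star_one K)
    have h3 : h y w = 1 := by rw [← hh.symm, hy1, star_one]
    have h4 := (R1 y hy2).2 (by rw [h3, nm_one])
    rw [hb, hh.smul_right, h3, mul_one, nm_star] at h4
    exact h4

end Pool.Agent.Helper92.UN
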