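import Pool.Agent.Helper92.UN.Core

/-!
# Project UN: reflections as elements of `V ≃ₗ[K] V`; the orders of the products of two reflections
-/

set_option autoImplicit false

namespace Pool.Agent.Helper92.UN

open Pool.Agent.Helper81.UT

variable {K V : Type*} [Field K] [StarRing K] [AddCommGroup V] [Module K V] {h : V → V → K}

/-- The reflection of a unit vector. -/
def Rf (hh : Herm h) {u : V} (hu : Un h u) : V ≃ₗ[K] V where
  toFun := rf h u
  invFun := rf h u
  left_inv := rf_rf hh hu
  right_inv := rf_rf hh hu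
  map_add' x y := by
    rw [rf, rf, rf, hh.add]
    module
  map_smul' c x := by
    rw [rf, rf, hh.smul, RingHom.id_apply]
    module

theorem Rf_apply (hh : Herm h) {u : V} (hu : Un h u) (x : V) : Rf hh hu x = rf h u x := rfl

theorem Rf_mul_self (hh : Herm h) {u : V} (hu : Un h u) : Rf hh hu * Rf hh hu = 1 := by
  ext x
  exact rf_rf hh hu x

theorem inv_Rf (hh : Herm h) {u : V} (hu : Un h u) : (Rf hh hu)⁻¹ = Rf hh hu :=
  inv_eq_of_mul_eq_one_left (Rf_mul_self hh hu)

theorem Rf_eq_iff (hh : Herm h) (h2 : (2 : K) ≠ 0) {u v : V} (hu : Un h u) (hv : Un h v) :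
    Rf hh hu = Rf hh hv ↔ Eqv K u v := by
  constructor
  · intro h1
    have h3 : rf h u u = rf h v u := by
      rw [← Rf_apply hh hu, h1, Rf_apply]
    rw [rf_self hu, rf] at h3
    have h4 : u = (h u v) • v := by
      have h5 : (2 : K) • u = (2 : K) • (h u v) • v := by
        rw [smul_smul]
        have h6 : (2 : K) • u = u - -u := by module
        rw [h6, h3]
        module
      exact smul_right_injective V h2 h5
    have h5 : nm (h u v) = 1 := by
      have h6 := hu
      rw [Un, h4, hh.smul, hh.smul_right, hv, mul_one] at h6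
      exact h6
    exact Eqv.symm ⟨_, h5, h4⟩
  · rintro ⟨m, hm, rfl⟩
    ext x
    rw [Rf_apply, Rf_apply, rf, rf, hh.smul_right, smul_smul]
    congr 2
    rw [nm] at hm
    linear_combination (-2 * h x u) * hm

theorem Rf_conj (hh : Herm h) {u : V} (hu : Un h u) (g : V ≃ₗ[K] V)
    (hg : ∀ x y, h (g x) (g y) = h x y) (hgu : Un h (g u)) :
    g * Rf hh hu * g⁻¹ = Rf hh hgu := by
  rw [mul_inv_eq_iff_eq_mul]
  ext x
  show g (rf h u x) = rf h (g u) (g x)
  rw [rf, rf, map_sub, map_smul, hg]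

theorem conj_Rf (hh : Herm h) {u v : V} (hu : Un h u) (hv : Un h v) :
    Rf hh hu * Rf hh hv * Rf hh hu = Rf hh (un_rf hh hu hv) := by
  have h1 := Rf_conj hh hv (Rf hh hu) (fun x y => h_rf hh hu x y) (un_rf hh hu hv)
  rw [inv_Rf] at h1
  exact h1

theorem mul_Rf_ne_one (hh : Herm h) (h2 : (2 : K) ≠ 0) {u v : V} (hu : Un h u) (hv : Un h v) :
    Rf hh hu * Rf hh hv = 1 ↔ Eqv K u v := by
  rw [mul_eq_one_iff_eq_inv, inv_Rf, Rf_eq_iff hh h2]

theorem order_two (hh : Herm h) (h2 : (2 : K) ≠ 0) {u v : V} (hu : Un h u) (hv : Un h v)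
    (huv : ¬ Eqv K u v) : orderOf (Rf hh hu * Rf hh hv) = 2 ↔ h u v = 0 := by
  have h1 : orderOf (Rf hh hu * Rf hh hv) = 2 ↔
      Rf hh hu * Rf hh hv * Rf hh hu = Rf hh hv ∧ Rf hh hu * Rf hh hv ≠ 1 := by
    rw [orderOf_eq_prime_iff, pow_two]
    refine and_congr_left fun _ => ?_
    rw [← mul_assoc, mul_eq_one_iff_eq_inv, inv_Rf]
  have h3 : Rf hh hu * Rf hh hv ≠ 1 := by
    rw [Ne, mul_Rf_ne_one hh h2]
    exact huv
  rw [h1, conj_Rf, Rf_eq_iff hh h2]
  constructor
  · rintro ⟨⟨m, hm, h4⟩, -⟩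
    by_contra h0
    have h0' : h v u ≠ 0 := fun hc => h0 (hh.eq_zero_comm.1 hc)
    apply huv
    rw [rf] at h4
    have hm0 : m ≠ 0 := by
      rintro rfl
      rw [nm_zero] at hm
      exact zero_ne_one hm
    have h5 : (m * (2 * h v u)) • u = (m - 1) • v := by
      have h6 : (1 : K) • v = m • v - (m * (2 * h v u)) • u := by
        rw [one_smul]
        conv_lhs => rw [h4]
        module
      rw [sub_smul, h6]
      module
    have h6 : m * (2 * h v u) ≠ 0 := mul_ne_zero hm0 (mul_ne_zero h2 h0')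
    have h7 : u = ((m * (2 * h v u))⁻¹ * (m - 1)) • v := by
      rw [mul_smul, ← h5, smul_smul, inv_mul_cancel₀ h6, one_smul]
    have h8 : nm ((m * (2 * h v u))⁻¹ * (m - 1)) = 1 := by
      have h9 := hu
      rw [Un, h7, hh.smul, hh.smul_right, hv, mul_one] at h9
      exact h9
    exact Eqv.symm ⟨_, h8, h7⟩
  · intro h0
    refine ⟨?_, h3⟩
    rw [rf_perp (hh.eq_zero_comm.1 h0)]
    exact Eqv.refl v

theorem not_eqv_of_perp (hh : Herm h) {u v : V} (hu : Un h u) (h0 : h u v = 0) :
    ¬ Eqv K u v := by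
  rintro ⟨m, hm, rfl⟩
  rw [hh.smul_right, hu, mul_one, star_eq_zero] at h0
  rw [h0, nm_zero] at hm
  exact zero_ne_one hm

theorem order_four (hh : Herm h) (h2 : (2 : K) ≠ 0) {u v : V} (hu : Un h u) (hv : Un h v) :
    orderOf (Rf hh hu * Rf hh hv) = 4 ↔ 2 * nm (h u v) = 1 := by
  -- the square is a product of two reflections
  have hsq : (Rf hh hu * Rf hh hv) ^ 2 = Rf hh hu * Rf hh (un_rf hh hv hu) := by
    rw [← conj_Rf hh hv hu, pow_two]
    group
  have hval : h u (rf h v u) = 1 - 2 * nm (h u v) := by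
    rw [rf, sub_right92 hh, hh.smul_right, hu, star_mul, star_two, nm]
    ring
  constructor
  · intro h4
    have h3 : orderOf ((Rf hh hu * Rf hh hv) ^ 2) = 2 := by
      rw [orderOf_pow' _ two_ne_zero, h4]
      decide
    rw [hsq] at h3
    have h5 : ¬ Eqv K u (rf h v u) := by
      intro e
      rw [(mul_Rf_ne_one hh h2 hu (un_rf hh hv hu)).2 e, orderOf_one] at h3
      exact absurd h3 (by decide)
    have h6 := (order_two hh h2 hu (un_rf hh hv hu) h5).1 h3
    rw [hval] at h6
    exact (sub_eq_zero.1 h6).symm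
  · intro h4
    have h0 : h u (rf h v u) = 0 := by
      rw [hval, h4, sub_self]
    have h3 := (order_two hh h2 hu (un_rf hh hv hu) (not_eqv_of_perp hh hu h0)).2 h0
    rw [← hsq] at h3
    have h5 : (Rf hh hu * Rf hh hv) ^ 2 ^ 1 ≠ 1 := by
      intro h6
      rw [pow_one] at h6
      rw [h6, orderOf_one] at h3
      exact absurd h3 (by decide)
    have h6 : (Rf hh hu * Rf hh hv) ^ 2 ^ (1 + 1) = 1 := by
      have h7 := pow_orderOf_eq_one ((Rf hh hu * Rf hh hv) ^ 2)
      rw [h3, ← pow_mul] at h7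
      exact h7
    exact orderOf_eq_prime_pow h5 h6

/-- If `nm (h u v) = 1` then the product has order the characteristic. -/
theorem pow_char (hh : Herm h) (p : ℕ) [CharP K p] {u v : V} (hu : Un h u) (hv : Un h v)
    (h1 : nm (h u v) = 1) : (Rf hh hu * Rf hh hv) ^ p = 1 := by
  obtain ⟨γ, hγ⟩ : ∃ γ, γ = h u v := ⟨_, rfl⟩
  rw [← hγ] at h1
  have hvu : h v u = star γ := by rw [← hh.symm u v, hγ]
  obtain ⟨z, hz⟩ : ∃ z, z = u - γ • v := ⟨_, rfl⟩
  have hue : u = γ • v + z := by rw [hz]; module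
  have hzv : h z v = 0 := by
    rw [hz, sub_left92 hh, hh.smul, hv, ← hγ]
    ring
  have hzu : h z u = 0 := by
    rw [hz, sub_left92 hh, hh.smul, hu, hvu]
    rw [nm] at h1
    linear_combination -h1
  have hzz : h z z = 0 := by
    conv_lhs => rw [hz, sub_right92 hh, hh.smul_right, ← hz]
    rw [hzu, hzv]
    ring
  have hvz : h v z = 0 := hh.eq_zero_comm.1 hzv
  have hstep : ∀ x, rf h u (rf h v x) =
      x + (2 * (h x v) * star γ) • z - (2 * h x z) • (γ • v + z) := by
    intro x
    have h3 : h (rf h v x) u = h x z - star γ * h x v := by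
      rw [rf, sub_left92 hh, hh.smul, hvu, hue, hh.add_right, hh.smul_right]
      ring
    rw [rf, h3, rf, hue]
    have h4 : γ * star γ = 1 := h1
    have h5 : (x - (2 * h x v) • v - (2 * (h x z - star γ * h x v)) • (γ • v + z)) =
        x + (2 * (h x v) * star γ) • z - (2 * h x z) • (γ • v + z) +
          (2 * h x v * (γ * star γ - 1)) • v := by module
    rw [h5, h4, sub_self, mul_zero, zero_smul, add_zero]
  have key : ∀ (k : ℕ) (x : V), ((Rf hh hu * Rf hh hv) ^ k) x =
      x + (2 * (k : K) * (h x v) * star γ) • z - (2 * (k : K) * h x z * γ) • v -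
        (2 * (k : K) ^ 2 * h x z) • z := by
    intro k x
    induction k with
    | zero =>
      rw [pow_zero, Nat.cast_zero]
      show x = _
      module
    | succ k ih =>
      rw [pow_succ']
      show rf h u (rf h v (((Rf hh hu * Rf hh hv) ^ k) x)) = _
      rw [ih]
      obtain ⟨y, hy⟩ : ∃ y, y = x + (2 * (k : K) * (h x v) * star γ) • z -
        (2 * (k : K) * h x z * γ) • v - (2 * (k : K) ^ 2 * h x z) • z := ⟨_, rfl⟩
      rw [← hy]
      have hyv : h y v = h x v - 2 * (k : K) * h x z * γ := by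
        rw [hy, sub_left92 hh, sub_left92 hh, hh.add, hh.smul, hh.smul, hh.smul, hzv, hv]
        ring
      have hyz : h y z = h x z := by
        rw [hy, sub_left92 hh, sub_left92 hh, hh.add, hh.smul, hh.smul, hh.smul, hzz, hvz]
        ring
      rw [hstep, hyv, hyz, hy, Nat.cast_succ]
      have h4 : γ * star γ = 1 := h1
      have h5 : x + (2 * (k : K) * (h x v) * star γ) • z - (2 * (k : K) * h x z * γ) • v -
          (2 * (k : K) ^ 2 * h x z) • z +
          (2 * (h x v - 2 * (k : K) * h x z * γ) * star γ) • z -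
          (2 * h x z) • (γ • v + z) =
          x + (2 * ((k : K) + 1) * h x v * star γ) • z - (2 * ((k : K) + 1) * h x z * γ) • v -
            (2 * (k : K) ^ 2 * h x z + 4 * (k : K) * h x z * (γ * star γ) + 2 * h x z) • z := by
        module
      rw [h5, h4]
      module
  apply LinearEquiv.ext
  intro x
  rw [key, CharP.cast_eq_zero]
  show _ = x
  module

/-- If the characteristic is the order of the product then `nm (h u v) = 1`. -/
theorem nm_of_pow (hh : Herm h) (h2 : (2 : K) ≠ 0) (p : ℕ) [hp : Fact p.Prime] [CharP K p]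
    {u v : V} (hu : Un h u) (hv : Un h v) (h1 : (Rf hh hu * Rf hh hv) ^ p = 1) :
    nm (h u v) = 1 := by
  obtain ⟨g, hg⟩ : ∃ g : Module.End K V, g = ((Rf hh hu * Rf hh hv : V ≃ₗ[K] V) : V →ₗ[K] V) :=
    ⟨_, rfl⟩
  have hgx : ∀ x, g x = rf h u (rf h v x) := by
    intro x
    rw [hg]
    rfl
  have hgp : ∀ (k : ℕ) (x : V), (g ^ k) x = ((Rf hh hu * Rf hh hv) ^ k) x := by
    intro k
    induction k with
    | zero => intro x; rfl
    | succ k ih =>
      intro x
      rw [pow_succ', pow_succ']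
      show g ((g ^ k) x) = (Rf hh hu * Rf hh hv) (((Rf hh hu * Rf hh hv) ^ k) x)
      rw [ih, hg]
      rfl
  have hg1 : g ^ p = 1 := by
    ext x
    rw [hgp, h1]
    rfl
  by_contra hne
  obtain ⟨t, ht⟩ : ∃ t, t = nm (h u v) := ⟨_, rfl⟩
  rw [← ht] at hne
  obtain ⟨s, hs⟩ : ∃ s, s = h v u := ⟨_, rfl⟩
  have huv : h u v = star s := by rw [← hh.symm v u, hs]
  have hst : s * star s = t := by
    rw [ht, huv, nm, star_star, mul_comm]
  -- the quadratic relation on `v`
  have gv : g v = (2 * s) • u - v := by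
    rw [hgx, rf_self hv, rf, hh.neg_left, ← hs]
    module
  have gu : g u = (4 * t - 1) • u - (2 * star s) • v := by
    have h3 : rf h v u = u - (2 * star s) • v := by rw [rf, huv]
    rw [hgx, h3, rf, sub_left92 hh, hh.smul, hu, ← hs, ← hst]
    module
  have hrel : g (g v) = (4 * t - 2) • g v - v := by
    conv_lhs => rw [gv]
    rw [map_sub, map_smul, gu, gv]
    have h3 : (2 * s) • ((4 * t - 1) • u - (2 * star s) • v) - ((2 * s) • u - v) =
        (8 * s * t - 4 * s) • u + (1 - 4 * (s * star s)) • v := by module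
    rw [h3, hst]
    module
  obtain ⟨N, hN⟩ : ∃ N : Module.End K V, N = g - 1 := ⟨_, rfl⟩
  have hc : (4 : K) * (1 - t) ≠ 0 := by
    have h4 : (4 : K) = 2 * 2 := by norm_num
    rw [h4]
    exact mul_ne_zero (mul_ne_zero h2 h2) (sub_ne_zero.2 (Ne.symm hne))
  have hNp : N ^ p = 0 := by
    have : CharP (Module.End K V) p := by
      have hv0 : v ≠ 0 := ne_zero_of_unit hh hv
      have : Nontrivial V := ⟨v, 0, hv0⟩
      exact charP_of_injective_algebraMap (algebraMap K (Module.End K V)).injective p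
    rw [hN, sub_pow_char_of_commute (p := p) (Commute.one_right g), hg1, one_pow, sub_self]
  obtain ⟨M, hM⟩ : ∃ M : Module.End K V, M = -(((4 : K) * (1 - t))⁻¹ • N + 1) := ⟨_, rfl⟩
  have hcomm : Commute N M := by
    rw [hM]
    exact (((Commute.refl N).smul_right _).add_right (Commute.one_right N)).neg_right
  have hNMv : (N * M) v = v := by
    have hNv : N v = g v - v := by rw [hN]; rfl
    have hNNv : N (N v) = g (g v) - (2 : K) • g v + v := by
      rw [hNv, hN]
      show g (g v - v) - (g v - v) = _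
      rw [map_sub]
      module
    have hMv : M v = -(((4 : K) * (1 - t))⁻¹ • N v + v) := by rw [hM]; rfl
    show N (M v) = v
    rw [hMv, map_neg, map_add, map_smul, hNNv, hrel, hNv]
    have h3 : -(((4 : K) * (1 - t))⁻¹ • ((4 * t - 2) • g v - v - (2 : K) • g v + v) + (g v - v)) =
        ((((4 : K) * (1 - t))⁻¹ * ((4 : K) * (1 - t))) - 1) • g v + v := by module
    rw [h3, inv_mul_cancel₀ hc, sub_self, zero_smul, zero_add]
  have hpow : ∀ k : ℕ, ((N * M) ^ k) v = v := by
    intro k
    induction k with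
    | zero => rfl
    | succ k ih =>
      rw [pow_succ]
      show ((N * M) ^ k) ((N * M) v) = v
      rw [hNMv, ih]
  have h5 := hpow p
  rw [hcomm.mul_pow, hNp, zero_mul] at h5
  exact ne_zero_of_unit hh hv h5.symm

theorem order_char (hh : Herm h) (h2 : (2 : K) ≠ 0) (p : ℕ) [hp : Fact p.Prime] [CharP K p]
    {u v : V} (hu : Un h u) (hv : Un h v) (huv : ¬ Eqv K u v) :
    orderOf (Rf hh hu * Rf hh hv) = p ↔ nm (h u v) = 1 := by
  rw [orderOf_eq_prime_iff]
  constructor
  · intro h1
    exact nm_of_pow hh h2 p hu hv h1.1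
  · intro h1
    refine ⟨pow_char hh p hu hv h1, ?_⟩
    rw [Ne, mul_Rf_ne_one hh h2]
    exact huv

end Pool.Agent.Helper92.UN
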